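import Pool.Agent.MP_36f34d_co.H14.Gauss

/-!
Bilinear sums of the cone kernels for two different primes.
-/

set_option autoImplicit false

open Finset

namespace Pool.Agent.MP_36f34d_co.H14

noncomputable def DD (p : ℕ) (v : V) : ℂ := (p : ℂ)⁻¹ * ∑ x ∈ cone p, E ((dt v x : ℝ) / p)

noncomputable def dl (p : ℕ) (v : V) : ℂ := if ∀ i, (p : ℤ) ∣ v i then 1 else 0

noncomputable def gg (p : ℕ) (v : V) : ℝ := (jacobiSym (-dt v v) p : ℝ) - (p : ℝ)⁻¹

lemma gg_eq {p : ℕ} (hp : p.Prime) (h2 : p ≠ 2) (v : V) :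
    (gg p v : ℂ) = DD p v - p * dl p v := by
  have hp0 : (p : ℂ) ≠ 0 := by exact_mod_cast hp.ne_zero
  rw [DD, cone_sum p hp h2, gg, dl]
  push_cast
  field_simp
  ring

lemma quad (P : Finset V) (θ : V → ℝ) :
    ∑ a ∈ P, ∑ b ∈ P, E (θ a - θ b) = ((‖∑ a ∈ P, E (θ a)‖ ^ 2 : ℝ) : ℂ) := by
  push_cast
  rw [← Complex.mul_conj', map_sum, sum_mul_sum]
  refine sum_congr rfl fun a _ => sum_congr rfl fun b _ => ?_
  rw [conj_E, ← E_add, sub_eq_add_neg]

lemma cone_eq {p : ℕ} {x z : V} (hx : x ∈ cone p) (hz : z ∈ cone p)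
    (h : ∀ i, (p : ℤ) ∣ x i - z i) : x = z := by
  funext i
  have h1 := mem_Ico.1 (Fintype.mem_piFinset.1 (mem_filter.1 hx).1 i)
  have h2 := mem_Ico.1 (Fintype.mem_piFinset.1 (mem_filter.1 hz).1 i)
  have := Int.eq_zero_of_abs_lt_dvd (h i) (by rw [abs_lt]; constructor <;> omega)
  omega

lemma cone_dvd {p : ℕ} {x : V} (hx : x ∈ cone p) (h : ∀ i, (p : ℤ) ∣ x i) : False := by
  refine (mem_filter.1 hx).2.1 (funext fun i => ?_)
  have h1 := mem_Ico.1 (Fintype.mem_piFinset.1 (mem_filter.1 hx).1 i)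
  exact Int.eq_zero_of_abs_lt_dvd (h i) (by rw [abs_lt]; constructor <;> omega)

lemma cop {p r : ℕ} (hp : p.Prime) (hr : r.Prime) (h : p ≠ r) : IsCoprime (p : ℤ) r :=
  Nat.isCoprime_iff_coprime.2 ((Nat.coprime_primes hp hr).2 h)

lemma T1 (P : Finset V) {p r : ℕ} (hp : p ≠ 0) (hr : r ≠ 0) :
    ‖∑ a ∈ P, ∑ b ∈ P, DD p (a - b) * DD r (a - b)‖ = ((p : ℝ) * r)⁻¹ *
      ∑ x ∈ cone p ×ˢ cone r, ‖∑ a ∈ P,
        E ((dt a ((r : ℤ) • x.1 + (p : ℤ) • x.2) : ℝ) / (p * r : ℕ))‖ ^ 2 := by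
  have hp0 : (p : ℝ) ≠ 0 := by exact_mod_cast hp
  have hr0 : (r : ℝ) ≠ 0 := by exact_mod_cast hr
  have h1 : ∀ a b : V, DD p (a - b) * DD r (a - b) = ((p : ℂ) * r)⁻¹ *
      ∑ x ∈ cone p ×ˢ cone r, E ((dt a ((r : ℤ) • x.1 + (p : ℤ) • x.2) : ℝ) / (p * r : ℕ) -
        (dt b ((r : ℤ) • x.1 + (p : ℤ) • x.2) : ℝ) / (p * r : ℕ)) := by
    intro a b
    rw [DD, DD, mul_mul_mul_comm, sum_mul_sum, ← mul_inv, sum_product]
    congr 1
    refine sum_congr rfl fun x _ => sum_congr rfl fun y _ => ?_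
    rw [← E_add]
    congr 1
    simp only [dt, Pi.add_apply, Pi.sub_apply, Pi.smul_apply, smul_eq_mul]
    push_cast
    field_simp
    ring
  simp only [h1, ← mul_sum]
  rw [sum_congr rfl fun a _ => sum_comm, sum_comm]
  simp only [quad]
  rw [← Complex.ofReal_sum, norm_mul, Complex.norm_real, Real.norm_of_nonneg (by positivity)]
  simp

lemma T1sum (P : Finset V) (N X : ℕ) (hX : 0 < X) (hN : N ≤ X ^ 2)
    (hP : ∀ a ∈ P, ∀ i, |a i| ≤ N) (O : Finset (ℕ × ℕ))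
    (hO : ∀ q ∈ O, q.1.Prime ∧ q.2.Prime ∧ q.1 ≠ q.2 ∧ q.1 ≤ X ∧ q.2 ≤ X)
    (hO2 : ∀ q ∈ O, ∀ q' ∈ O, q.1 = q'.2 → q.2 = q'.1 → False) :
    ∑ q ∈ O, ∑ x ∈ cone q.1 ×ˢ cone q.2, ‖∑ a ∈ P,
        E ((dt a ((q.2 : ℤ) • x.1 + (q.1 : ℤ) • x.2) : ℝ) / (q.1 * q.2 : ℕ))‖ ^ 2 ≤
      64 * ((6 * X ^ 2 : ℕ) : ℝ) ^ 3 * P.card := by
  rw [sum_sigma']
  refine ls (O.sigma fun q => cone q.1 ×ˢ cone q.2)
    (fun j => (j.1.2 : ℤ) • j.2.1 + (j.1.1 : ℤ) • j.2.2) (fun j => j.1.1 * j.1.2) (X ^ 2) _ N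
    ?_ ?_ (by omega) (by positivity) (by omega) P hP
  · rintro ⟨⟨p, r⟩, x, y⟩ hj
    simp only [mem_sigma, mem_product] at hj
    obtain ⟨hp, hr, hpr, hpX, hrX⟩ := hO _ hj.1
    obtain ⟨s, hs⟩ := (mem_filter.1 hj.2.1).2.2
    obtain ⟨t, ht⟩ := (mem_filter.1 hj.2.2).2.2
    refine ⟨Nat.mul_pos hp.pos hr.pos, by rw [sq]; exact Nat.mul_le_mul hpX hrX,
      r * s + p * t + 2 * dt x y, ?_⟩
    simp only [dt, Pi.add_apply, Pi.smul_apply, smul_eq_mul] at hs ht ⊢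
    push_cast
    linear_combination (r : ℤ) ^ 2 * hs + (p : ℤ) ^ 2 * ht
  · rintro ⟨⟨p, r⟩, x, y⟩ hj ⟨⟨p', r'⟩, x', y'⟩ hk h
    simp only [mem_sigma, mem_product] at hj hk
    obtain ⟨hp, hr, hpr, -, -⟩ := hO _ hj.1
    obtain ⟨hp', hr', hpr', -, -⟩ := hO _ hk.1
    simp only [Pi.add_apply, Pi.smul_apply, smul_eq_mul, Nat.cast_mul] at h hp hr hpr hp' hr' hpr'
    choose c hc using h
    have h1 : p = p' ∨ p = r' := by
      by_contra hn
      rw [not_or] at hn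
      refine cone_dvd hj.2.1 fun i => ?_
      refine (((cop hp hr hpr).mul_right (cop hp hp' hn.1)).mul_right
        (cop hp hr' hn.2)).dvd_of_dvd_mul_left
        ⟨r * (p' * r') * c i - y i * (p' * r') + (r' * x' i + p' * y' i) * r, ?_⟩
      linear_combination hc i
    have h2 : r = p' ∨ r = r' := by
      by_contra hn
      rw [not_or] at hn
      refine cone_dvd hj.2.2 fun i => ?_
      refine (((cop hr hp hpr.symm).mul_right (cop hr hp' hn.1)).mul_right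
        (cop hr hr' hn.2)).dvd_of_dvd_mul_left
        ⟨p * (p' * r') * c i - x i * (p' * r') + (r' * x' i + p' * y' i) * p, ?_⟩
      linear_combination hc i
    have h3 := hO2 _ hj.1 _ hk.1
    simp only at h3
    have h5 : p = p' := h1.resolve_right fun e =>
      h2.elim (h3 e) fun e' => hpr (e.trans e'.symm)
    have h6 : r = r' := h2.resolve_left fun e => hpr (h5.trans e.symm)
    subst h5 h6
    have h4 : ∀ i, (r : ℤ) * (x i - x' i) + p * (y i - y' i) = p * r * c i := fun i =>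
      mul_left_cancel₀ (a := (p : ℤ) * r)
        (by exact_mod_cast Nat.mul_ne_zero hp.ne_zero hr.ne_zero) (by linear_combination hc i)
    obtain rfl : x = x' := cone_eq hj.2.1 hk.2.1 fun i =>
      (cop hp hr hpr).dvd_of_dvd_mul_left ⟨r * c i - (y i - y' i), by linear_combination h4 i⟩
    obtain rfl : y = y' := cone_eq hj.2.2 hk.2.2 fun i =>
      (cop hr hp hpr.symm).dvd_of_dvd_mul_left ⟨p * c i, by linear_combination h4 i⟩
    rfl

def md (r : ℕ) (a : V) : V := fun i => a i % r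

def dv (r : ℕ) (a : V) : V := fun i => a i / r

lemma T2 (P : Finset V) (p r : ℕ) :
    ‖∑ a ∈ P, ∑ b ∈ P, DD p (a - b) * dl r (a - b)‖ = (p : ℝ)⁻¹ *
      ∑ x ∈ cone p, ∑ c ∈ P.image (md r),
        ‖∑ a ∈ P.filter (fun a => md r a = c), E ((dt a x : ℝ) / p)‖ ^ 2 := by
  classical
  have h1 : ∀ x : V, ∑ a ∈ P, ∑ b ∈ P, E ((dt (a - b) x : ℝ) / p) * dl r (a - b) =
      ((∑ c ∈ P.image (md r),
        ‖∑ a ∈ P.filter (fun a => md r a = c), E ((dt a x : ℝ) / p)‖ ^ 2 : ℝ) : ℂ) := by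
    intro x
    rw [Complex.ofReal_sum, ← sum_fiberwise_of_maps_to (g := md r)
      (t := P.image (md r)) fun a ha => mem_image_of_mem _ ha]
    refine sum_congr rfl fun c _ => ?_
    rw [← quad]
    refine sum_congr rfl fun a ha => ?_
    rw [sum_filter]
    refine sum_congr rfl fun b _ => ?_
    have h2 : (∀ i, (r : ℤ) ∣ (a - b) i) ↔ md r b = c := by
      rw [← (mem_filter.1 ha).2, funext_iff]
      exact forall_congr' fun i => Int.modEq_iff_dvd.symm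
    simp only [dl, h2, mul_ite, mul_one, mul_zero]
    congr 2
    simp only [dt, Pi.sub_apply]
    push_cast
    ring
  simp only [DD, mul_assoc, ← mul_sum, sum_mul]
  rw [sum_congr rfl fun a _ => sum_comm, sum_comm]
  simp only [h1]
  rw [← Complex.ofReal_sum, norm_mul, Complex.norm_real, Real.norm_of_nonneg (by positivity)]
  simp

lemma T2sum (P : Finset V) (X r : ℕ) (hX : 0 < X) (hr : r.Prime)
    (hP : ∀ a ∈ P, ∀ i, 0 ≤ a i ∧ a i ≤ X * r) (O : Finset ℕ)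
    (hO : ∀ p ∈ O, p.Prime ∧ p ≠ r ∧ p ≤ X) :
    ∑ p ∈ O, ∑ x ∈ cone p, ∑ c ∈ P.image (md r),
        ‖∑ a ∈ P.filter (fun a => md r a = c), E ((dt a x : ℝ) / p)‖ ^ 2 ≤
      64 * ((6 * X : ℕ) : ℝ) ^ 3 * P.card := by
  classical
  have hr0 : (0 : ℤ) < r := by exact_mod_cast hr.pos
  rw [sum_sigma' O cone, sum_comm, card_eq_sum_card_image (md r) P, Nat.cast_sum,
    mul_sum]
  refine sum_le_sum fun c _ => ?_
  set Q := P.filter (fun a => md r a = c) with hQ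
  have hdec : ∀ a ∈ Q, ∀ i, a i = c i + r * (a i / r) := fun a ha i => by
    rw [← (mem_filter.1 ha).2]
    exact (Int.emod_add_mul_ediv _ _).symm
  have hinj : Set.InjOn (dv r) Q := fun a ha b hb h => funext fun i => by
    rw [hdec a ha i, hdec b hb i, show a i / r = b i / r from congrFun h i]
  have key := ls (O.sigma fun p => cone p) (fun j => (r : ℤ) • j.2) (fun j => j.1) X (6 * X) X
    ?_ ?_ le_rfl (by positivity) (by omega) (Q.image (dv r)) ?_
  · rw [card_image_of_injOn hinj] at key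
    refine le_trans (le_of_eq (sum_congr rfl fun j _ => ?_)) key
    rw [sum_image hinj]
    have h1 : ∀ a ∈ Q, E ((dt a j.2 : ℝ) / j.1) = E ((dt c j.2 : ℝ) / j.1) *
        E ((dt (dv r a) ((r : ℤ) • j.2) : ℝ) / j.1) := by
      intro a ha
      have h2 : dt a j.2 = dt c j.2 + dt (dv r a) ((r : ℤ) • j.2) := by
        simp only [dt, dv, Pi.smul_apply, smul_eq_mul]
        linear_combination j.2 0 * hdec a ha 0 + j.2 1 * hdec a ha 1 + j.2 2 * hdec a ha 2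
      rw [← E_add, h2, Int.cast_add, add_div]
    rw [sum_congr rfl h1, ← mul_sum, norm_mul, norm_E, one_mul]
  · rintro ⟨p, x⟩ hj
    simp only [mem_sigma] at hj
    obtain ⟨hp, -, hpX⟩ := hO _ hj.1
    obtain ⟨s, hs⟩ := (mem_filter.1 hj.2).2.2
    refine ⟨hp.pos, hpX, r ^ 2 * s, ?_⟩
    simp only [dt, Pi.smul_apply, smul_eq_mul] at hs ⊢
    linear_combination (r : ℤ) ^ 2 * hs
  · rintro ⟨p, x⟩ hj ⟨p', x'⟩ hk h
    simp only [mem_sigma] at hj hk
    obtain ⟨hp, hpr, -⟩ := hO _ hj.1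
    obtain ⟨hp', -, -⟩ := hO _ hk.1
    simp only [Pi.smul_apply, smul_eq_mul] at h
    choose c hc using h
    obtain rfl : p = p' := by
      by_contra hn
      refine cone_dvd hj.2 fun i => ?_
      refine ((cop hp hr hpr).mul_right (cop hp hp' hn)).dvd_of_dvd_mul_left
        ⟨p' * c i + r * x' i, ?_⟩
      linear_combination hc i
    have h4 : ∀ i, (r : ℤ) * (x i - x' i) = p * c i := fun i =>
      mul_left_cancel₀ (a := (p : ℤ)) (by exact_mod_cast hp.ne_zero) (by linear_combination hc i)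
    obtain rfl : x = x' := cone_eq hj.2 hk.2 fun i =>
      (cop hp hr hpr).dvd_of_dvd_mul_left ⟨c i, h4 i⟩
    rfl
  · intro a' ha' i
    obtain ⟨a, ha, rfl⟩ := mem_image.1 ha'
    have h1 := hP a (mem_filter.1 ha).1 i
    rw [dv, abs_of_nonneg (Int.ediv_nonneg h1.1 hr0.le)]
    exact Int.ediv_le_of_le_mul hr0 h1.2

lemma T3 (P : Finset V) {p r : ℕ} (hp : p.Prime) (hr : r.Prime) (hpr : p ≠ r)
    (hP : ∀ a ∈ P, ∀ i, 0 ≤ a i ∧ a i < p * r) :
    ∑ a ∈ P, ∑ b ∈ P, dl p (a - b) * dl r (a - b) = P.card := by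
  classical
  rw [card_eq_sum_ones, Nat.cast_sum]
  refine sum_congr rfl fun a ha => ?_
  rw [sum_eq_single a]
  · simp [dl]
  · intro b hb hba
    simp only [dl]
    split_ifs with h1 h2
    · refine absurd (funext fun i => ?_) hba
      have h3 := hP a ha i
      have h4 := hP b hb i
      have := Int.eq_zero_of_abs_lt_dvd ((cop hp hr hpr).mul_dvd (h1 i) (h2 i))
        (by rw [Pi.sub_apply, abs_lt]; constructor <;> linarith [h3.1, h3.2, h4.1, h4.2])
      rw [Pi.sub_apply] at this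
      linarith
    all_goals simp
  · intro h
    exact absurd ha h

end Pool.Agent.MP_36f34d_co.H14
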