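import Pool.Agent.MP_36f34d_co.H14.LS
import Pool.Agent.MP_74e98a_nt.H25.Div

/-!
Few lattice points lie on a circle: a bound by the divisor function, uniform in the circle.
-/

set_option autoImplicit false

open Finset

namespace Pool.Agent.MP_36f34d_co.H14

lemma color (p : ℕ) (hp : p.Prime) (D : ℤ) (M : ℕ) (hM : M ≠ 0) :
    ∃ f : ℤ × ℤ → ℕ, (∀ s, f s < M.factorization p + 2) ∧
      ∀ s t : ℤ × ℤ, s.1 ^ 2 + D * s.2 ^ 2 = M → t.1 ^ 2 + D * t.2 ^ 2 = M → f s = f t →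
        (p : ℤ) ^ (M.factorization p) ∣ 2 * (s.1 * t.1 + D * s.2 * t.2) := by
  classical
  have : Fact p.Prime := ⟨hp⟩
  set v := M.factorization p with hv
  set q : ℝ := (p : ℝ)⁻¹ with hq
  have hp1 : (1 : ℝ) < p := by exact_mod_cast hp.one_lt
  have hq0 : 0 < q := by positivity
  have hq1 : q < 1 := inv_lt_one_of_one_lt₀ hp1
  have hz : ∀ n : ℕ, (p : ℝ) ^ (-(n : ℤ)) = q ^ n := fun n => by
    rw [zpow_neg, zpow_natCast, hq, inv_pow]
  have nI : ∀ k : ℤ, ‖(k : PadicAlgCl p)‖ = ‖(k : ℚ_[p])‖ := fun k => by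
    rw [← map_intCast (algebraMap ℚ_[p] (PadicAlgCl p)), PadicAlgCl.norm_extends]
  have n1 : ∀ k : ℤ, ‖(k : PadicAlgCl p)‖ ≤ 1 := fun k => by
    rw [nI]
    exact Padic.norm_int_le_one k
  have nv : ∀ k : ℤ, k ≠ 0 → ‖(k : PadicAlgCl p)‖ = q ^ padicValInt p k := fun k hk => by
    rw [nI, Padic.norm_eq_zpow_neg_valuation (by exact_mod_cast hk), Padic.valuation_intCast, hz]
  have nM : ‖((M : ℤ) : PadicAlgCl p)‖ = q ^ v := by
    rw [nv _ (by exact_mod_cast hM), padicValInt.of_nat, hv, Nat.factorization_def _ hp]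
  obtain ⟨r, hr⟩ := IsAlgClosed.exists_pow_nat_eq (((-D : ℤ) : PadicAlgCl p)) two_pos
  have hr1 : ‖r‖ ≤ 1 := by
    have h1 := n1 (-D)
    rw [← hr, norm_pow] at h1
    exact (pow_le_one_iff_of_nonneg (norm_nonneg _) two_ne_zero).1 h1
  set a : ℤ × ℤ → PadicAlgCl p := fun s => s.1 + r * s.2 with ha
  set b : ℤ × ℤ → PadicAlgCl p := fun s => s.1 + r * (-s.2 : ℤ) with hb
  have hle : ∀ x y : ℤ, ‖(x : PadicAlgCl p) + r * y‖ ≤ 1 := fun x y => by
    refine (IsUltrametricDist.norm_add_le_max _ _).trans (max_le (n1 x) ?_)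
    rw [norm_mul]
    exact mul_le_one₀ hr1 (norm_nonneg _) (n1 y)
  have hab : ∀ s : ℤ × ℤ, s.1 ^ 2 + D * s.2 ^ 2 = M → ‖a s‖ * ‖b s‖ = q ^ v := by
    intro s hs
    rw [← norm_mul, ← nM, ← hs]
    congr 1
    simp only [ha, hb]
    push_cast at hr ⊢
    linear_combination (-(s.2 : PadicAlgCl p) ^ 2) * hr
  have hne : ∀ s : ℤ × ℤ, s.1 ^ 2 + D * s.2 ^ 2 = M → ‖a s‖ ≠ ‖b s‖ →
      ∃ j, j ≤ v ∧ ‖a s‖ = q ^ j := by
    intro s hs h
    have h1 := IsUltrametricDist.norm_add_eq_max_of_norm_ne_norm h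
    have h2 : a s + b s = ((2 * s.1 : ℤ) : PadicAlgCl p) := by
      simp only [ha, hb]
      push_cast
      ring
    have h3 := hab s hs
    have h4 : ‖a s‖ ≤ 1 := hle _ _
    have h5 : ‖b s‖ ≤ 1 := hle _ _
    have h6 : q ^ v ≤ ‖a s‖ := by
      rw [← h3]
      exact mul_le_of_le_one_right (norm_nonneg _) h5
    have h7 : 2 * s.1 ≠ 0 := by
      intro h0
      rw [h2, h0, Int.cast_zero, norm_zero] at h1
      have := le_max_left ‖a s‖ ‖b s‖
      have : 0 < q ^ v := by positivity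
      linarith
    rw [h2, nv _ h7] at h1
    set k := padicValInt p (2 * s.1)
    have hk : k ≤ v := by
      rw [← pow_le_pow_iff_right_of_lt_one₀ hq0 hq1, h1]
      exact h6.trans (le_max_left _ _)
    rcases max_choice ‖a s‖ ‖b s‖ with h8 | h8
    · exact ⟨k, hk, by rw [h1, h8]⟩
    · refine ⟨v - k, Nat.sub_le _ _, ?_⟩
      rw [h8] at h1
      rw [← h1, ← Nat.sub_add_cancel hk, pow_add] at h3
      exact mul_right_cancel₀ (by positivity) h3
  refine ⟨fun s => if h : ∃ j, j ≤ v ∧ ‖a s‖ = q ^ j then h.choose else v + 1, ?_, ?_⟩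
  · intro s
    dsimp only
    split_ifs with h
    · have := h.choose_spec.1
      omega
    · omega
  · intro s t hs ht hf
    have h1 : ‖a s‖ = ‖a t‖ := by
      dsimp only at hf
      split_ifs at hf with h2 h3 h3
      · rw [h2.choose_spec.2, h3.choose_spec.2, hf]
      · have := h2.choose_spec.1
        omega
      · have := h3.choose_spec.1
        omega
      · have h4 : ‖a s‖ = ‖b s‖ := by_contra fun h => h2 (hne s hs h)
        have h5 : ‖a t‖ = ‖b t‖ := by_contra fun h => h3 (hne t ht h)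
        have h6 := hab s hs
        have h7 := hab t ht
        rw [← h4] at h6
        rw [← h5] at h7
        exact (mul_self_inj (norm_nonneg _) (norm_nonneg _)).1 (h6.trans h7.symm)
    rw [← Padic.norm_int_le_pow_iff_dvd, ← nI, hz]
    have h2 : ((2 * (s.1 * t.1 + D * s.2 * t.2) : ℤ) : PadicAlgCl p) = a s * b t + a t * b s := by
      simp only [ha, hb]
      push_cast at hr ⊢
      linear_combination (2 * (s.2 : PadicAlgCl p) * t.2) * hr
    rw [h2]
    refine (IsUltrametricDist.norm_add_le_max _ _).trans (max_le ?_ ?_)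
    · rw [norm_mul, h1, hab t ht]
    · rw [norm_mul, ← h1, hab s hs]

lemma reps (D : ℤ) (hD : 1 ≤ D) (M : ℕ) (hM : M ≠ 0) (S : Finset (ℤ × ℤ))
    (hS : ∀ s ∈ S, s.1 ^ 2 + D * s.2 ^ 2 = M) : S.card ≤ 10 * M.divisors.card ^ 2 := by
  classical
  have hc := fun p hp => color p hp D M hM
  choose! f hf1 hf2 using hc
  have hM0 : (0 : ℤ) < M := by exact_mod_cast Nat.pos_of_ne_zero hM
  refine (card_le_mul_card_image_of_maps_to (f := fun s (p : M.primeFactors) => f p s)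
    (t := Fintype.piFinset fun p : M.primeFactors => range (M.factorization p + 2))
    (fun s _ => Fintype.mem_piFinset.2 fun p =>
      mem_range.2 (hf1 p (Nat.prime_of_mem_primeFactors p.2) s)) 10 ?_).trans ?_
  · intro c _
    rcases (S.filter fun s => (fun p : M.primeFactors => f p s) = c).eq_empty_or_nonempty with
      h | ⟨t, ht⟩
    · rw [h]
      simp
    have hd : ∀ s ∈ S.filter fun s => (fun p : M.primeFactors => f p s) = c,
        (M : ℤ) ∣ 2 * (s.1 * t.1 + D * s.2 * t.2) := by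
      intro s hs
      rw [Int.natCast_dvd, Nat.dvd_iff_prime_pow_dvd_dvd]
      intro p k hp hk
      rcases Nat.eq_zero_or_pos k with rfl | hk0
      · simp
      have hpM : p ∈ M.primeFactors :=
        Nat.mem_primeFactors.2 ⟨hp, (dvd_pow_self p hk0.ne').trans hk, hM⟩
      have h1 := hf2 p hp s t (hS s (mem_filter.1 hs).1) (hS t (mem_filter.1 ht).1)
        ((congrFun (mem_filter.1 hs).2 ⟨p, hpM⟩).trans (congrFun (mem_filter.1 ht).2 ⟨p, hpM⟩).symm)
      rw [← Int.natCast_dvd]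
      push_cast
      exact (pow_dvd_pow _ ((hp.pow_dvd_iff_le_factorization hM).1 hk)).trans h1
    have ht' := hS t (mem_filter.1 ht).1
    have hid : ∀ s ∈ S, (s.1 * t.1 + D * s.2 * t.2) ^ 2 + D * (s.1 * t.2 - s.2 * t.1) ^ 2 =
        (M : ℤ) ^ 2 := by
      intro s hs
      have := hS s hs
      linear_combination (t.1 ^ 2 + D * t.2 ^ 2) * this + (M : ℤ) * ht'
    refine le_trans (card_le_card_of_injOn (t := Icc (-2 : ℤ) 2 ×ˢ (univ : Finset Bool))
      (fun s => (2 * (s.1 * t.1 + D * s.2 * t.2) / M, decide (0 ≤ s.1 * t.2 - s.2 * t.1))) ?_ ?_)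
      (by simp)
    · intro s hs
      obtain ⟨z, hz⟩ := hd s hs
      have h1 := hid s (mem_filter.1 hs).1
      simp only [coe_product, Set.mem_prod, mem_coe, mem_Icc, mem_univ, and_true]
      rw [hz, Int.mul_ediv_cancel_left _ hM0.ne']
      have h2 : (M : ℤ) ^ 2 * z ^ 2 ≤ (M : ℤ) ^ 2 * 2 ^ 2 := by
        have h3 : 0 ≤ D * (s.1 * t.2 - s.2 * t.1) ^ 2 := by positivity
        calc _ = (2 * (s.1 * t.1 + D * s.2 * t.2)) ^ 2 := by rw [hz]; ring
          _ ≤ _ := by linarith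
      exact abs_le_of_sq_le_sq' (le_of_mul_le_mul_left h2 (by positivity)) (by norm_num)
    · intro s hs s' hs' he
      obtain ⟨z, hz⟩ := hd s hs
      obtain ⟨z', hz'⟩ := hd s' hs'
      simp only [Prod.mk.injEq, decide_eq_decide] at he
      obtain ⟨e1, e2⟩ := he
      rw [hz, hz', Int.mul_ediv_cancel_left _ hM0.ne', Int.mul_ediv_cancel_left _ hM0.ne'] at e1
      have e3 : s.1 * t.1 + D * s.2 * t.2 = s'.1 * t.1 + D * s'.2 * t.2 := by
        rw [e1] at hz
        linarith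
      have h1 := hid s (mem_filter.1 hs).1
      have h2 := hid s' (mem_filter.1 hs').1
      have e4 : (s.1 * t.2 - s.2 * t.1) ^ 2 = (s'.1 * t.2 - s'.2 * t.1) ^ 2 := by
        rw [e3] at h1
        exact mul_left_cancel₀ (show D ≠ 0 by omega) (by linarith)
      have e5 : s.1 * t.2 - s.2 * t.1 = s'.1 * t.2 - s'.2 * t.1 := by
        rcases sq_eq_sq_iff_eq_or_eq_neg.1 e4 with h | h
        · exact h
        · omega
      refine Prod.ext (mul_left_cancel₀ hM0.ne' ?_) (mul_left_cancel₀ hM0.ne' ?_)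
      · linear_combination t.1 * e3 + D * t.2 * e5 - (s.1 - s'.1) * ht'
      · linear_combination t.2 * e3 - t.1 * e5 - (s.2 - s'.2) * ht'
  · gcongr
    rw [Fintype.card_piFinset, Nat.card_divisors hM, ← prod_pow, ← prod_coe_sort M.primeFactors]
    refine prod_le_prod' fun p _ => ?_
    have : 0 < M.factorization p := (Nat.prime_of_mem_primeFactors p.2).factorization_pos_of_dvd hM
      (Nat.dvd_of_mem_primeFactors p.2)
    rw [card_range]
    nlinarith

/-- lattice points on a circle -/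
theorem circ (ε : ℝ) (hε : 0 < ε) : ∃ C : ℝ, 0 < C ∧ ∀ (B : ℝ) (u : V) (S : Finset V),
    (∀ w ∈ S, ∀ w' ∈ S, dt w w = dt w' w' ∧ dt w u = dt w' u) →
    (∀ w ∈ S, 0 < dt u u * dt w w - dt w u ^ 2 ∧
      ((dt u u * dt w w - dt w u ^ 2 : ℤ) : ℝ) ≤ B) → 0 ≤ B → (S.card : ℝ) ≤ C * B ^ ε := by
  classical
  obtain ⟨C, hC1, hC⟩ := MP_74e98a_nt.H25.divisor_bound (ε / 4) (by positivity)
  refine ⟨10 * C ^ 2, by positivity, fun B u S h1 h2 hB => ?_⟩
  rcases S.eq_empty_or_nonempty with rfl | ⟨w, hw⟩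
  · simp only [card_empty, Nat.cast_zero]
    positivity
  obtain ⟨hA, hAB⟩ := h2 w hw
  obtain ⟨A, hA'⟩ := Int.eq_ofNat_of_zero_le hA.le
  rw [hA'] at hA hAB
  have hA0 : A ≠ 0 := by
    rintro rfl
    simp at hA
  have hD : 1 ≤ dt u u := by
    by_contra h
    have h3 : dt u u = 0 := by
      have : 0 ≤ dt u u := add_nonneg (add_nonneg (mul_self_nonneg _) (mul_self_nonneg _))
        (mul_self_nonneg _)
      omega
    rw [h3] at hA'
    nlinarith [sq_nonneg (dt w u)]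
  set g : V → ℤ × ℤ := fun x => (dt u u * dt x w - dt w u ^ 2,
    x 0 * (u 1 * w 2 - u 2 * w 1) + x 1 * (u 2 * w 0 - u 0 * w 2) + x 2 * (u 0 * w 1 - u 1 * w 0))
    with hg
  have hinj : Set.InjOn g S := by
    intro x hx y hy he
    simp only [hg, Prod.mk.injEq] at he
    obtain ⟨e1, e2⟩ := he
    have e3 : dt x w = dt y w := mul_left_cancel₀ (show dt u u ≠ 0 by omega) (by linarith)
    have e4 := (h1 x hx y hy).2
    have e5 : dt (x - y) (x - y) = 0 := by
      refine mul_left_cancel₀ hA.ne' ?_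
      rw [← hA']
      simp only [dt, Pi.sub_apply] at e3 e4 ⊢
      have i1 : (x 0 - y 0) * u 0 + (x 1 - y 1) * u 1 + (x 2 - y 2) * u 2 = 0 := by linarith
      have i2 : (x 0 - y 0) * w 0 + (x 1 - y 1) * w 1 + (x 2 - y 2) * w 2 = 0 := by linarith
      have i3 : (x 0 - y 0) * (u 1 * w 2 - u 2 * w 1) + (x 1 - y 1) * (u 2 * w 0 - u 0 * w 2) +
        (x 2 - y 2) * (u 0 * w 1 - u 1 * w 0) = 0 := by linarith
      generalize x 0 - y 0 = d0 at *
      generalize x 1 - y 1 = d1 at *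
      generalize x 2 - y 2 = d2 at *
      linear_combination
        (d0 * (u 1 * w 2 - u 2 * w 1) + d1 * (u 2 * w 0 - u 0 * w 2) +
          d2 * (u 0 * w 1 - u 1 * w 0)) * i3 +
        ((w 0 * w 0 + w 1 * w 1 + w 2 * w 2) * (d0 * u 0 + d1 * u 1 + d2 * u 2) -
          2 * (w 0 * u 0 + w 1 * u 1 + w 2 * u 2) * (d0 * w 0 + d1 * w 1 + d2 * w 2)) * i1 +
        (u 0 * u 0 + u 1 * u 1 + u 2 * u 2) * (d0 * w 0 + d1 * w 1 + d2 * w 2) * i2
    exact sub_eq_zero.1 (funext (dt_zero _ e5))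
  have h3 := reps (dt u u) hD (A ^ 2) (pow_ne_zero 2 hA0) (S.image g) (by
    intro s hs
    obtain ⟨x, hx, rfl⟩ := mem_image.1 hs
    obtain ⟨e1, e2⟩ := h1 x hx w hw
    have e3 : (g x).2 ^ 2 = dt u u * dt w w * dt x x + 2 * dt w u * dt x w * dt x u -
        dt w u ^ 2 * dt x x - dt x u ^ 2 * dt w w - dt u u * dt x w ^ 2 := by
      simp only [hg, dt]
      ring
    rw [e3, e1, e2, Nat.cast_pow, ← hA']
    simp only [hg]
    ring)
  rw [card_image_of_injOn hinj] at h3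
  have h4 := hC (A ^ 2)
  have hA1 : (0 : ℝ) ≤ A := Nat.cast_nonneg A
  have h5 : (((A ^ 2 : ℕ) : ℝ) ^ (ε / 4)) ^ 2 = (A : ℝ) ^ ε := by
    rw [Nat.cast_pow, ← Real.rpow_natCast, ← Real.rpow_natCast, ← Real.rpow_mul hA1,
      ← Real.rpow_mul hA1]
    congr 1
    push_cast
    ring
  calc (S.card : ℝ) ≤ 10 * ((A ^ 2).divisors.card : ℝ) ^ 2 := by exact_mod_cast h3
    _ ≤ 10 * (C * ((A ^ 2 : ℕ) : ℝ) ^ (ε / 4)) ^ 2 := by gcongr
    _ = 10 * C ^ 2 * (A : ℝ) ^ ε := by rw [mul_pow, h5]; ring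
    _ ≤ _ := by
      gcongr
      exact_mod_cast hAB

end Pool.Agent.MP_36f34d_co.H14
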