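import Pool.Agent.MP_36f34d_co.H14.Bil

/-!
The square sieve: pairs of lattice points whose squared distance lies in a given square class.
-/

set_option autoImplicit false

open Finset

namespace Pool.Agent.MP_36f34d_co.H14

lemma abs_jac (a : ℤ) (p : ℕ) : |(jacobiSym a p : ℝ)| ≤ 1 := by
  rcases jacobiSym.trichotomy a p with h | h | h <;> simp [h]

lemma abs_gg (p : ℕ) (v : V) : |gg p v| ≤ 2 := by
  have h1 := abs_le.1 (abs_jac (-dt v v) p)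
  have h2 : (0 : ℝ) ≤ (p : ℝ)⁻¹ := by positivity
  have h3 : (p : ℝ)⁻¹ ≤ 1 := Nat.cast_inv_le_one p
  rw [gg, abs_le]
  constructor <;> linarith [h1.1, h1.2]

lemma lower (Y : ℕ) (s : ℤ) (R : Finset ℕ) (hR : ∀ p ∈ R, p.Prime ∧ Y ≤ p) (hY : 36 ≤ Y)
    (hYR : Y ≤ R.card) (v : V) (h0 : 0 < s * dt v v) (h1 : s * dt v v ≤ 9 * (Y : ℤ) ^ 8)
    (hsq : IsSquare (s * dt v v)) :
    (R.card : ℝ) / 4 ≤ ∑ p ∈ R, (jacobiSym (-s) p : ℝ) * gg p v := by
  classical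
  obtain ⟨z, hz⟩ := hsq
  have h2 : ∀ p ∈ R, (1 / 2 : ℝ) - (if (p : ℤ) ∣ s * dt v v then 1 else 0) ≤
      (jacobiSym (-s) p : ℝ) * gg p v := by
    intro p hp
    have h3 : (jacobiSym (-s) p : ℝ) * (jacobiSym (-dt v v) p : ℝ) = jacobiSym (z ^ 2) p := by
      rw [← Int.cast_mul, ← jacobiSym.mul_left, neg_mul_neg, hz, sq]
    have h4 : (jacobiSym (-s) p : ℝ) * (p : ℝ)⁻¹ ≤ 1 / 2 := by
      have h5 : (2 : ℝ) ≤ p := by exact_mod_cast (hR p hp).1.two_le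
      calc _ ≤ 1 * (2 : ℝ)⁻¹ := by
            gcongr
            exact (abs_le.1 (abs_jac _ _)).2
        _ = _ := by norm_num
    rw [gg, mul_sub, h3]
    split_ifs with h
    · rw [jacobiSym.pow_left, Int.cast_pow]
      linarith [sq_nonneg (jacobiSym z p : ℝ)]
    · rw [jacobiSym.sq_one']
      · push_cast
        linarith
      · rw [Int.gcd_comm, ← Int.isCoprime_iff_gcd_eq_one,
          (Nat.prime_iff_prime_int.1 (hR p hp).1).irreducible.coprime_iff_not_dvd]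
        exact fun hd => h (hz ▸ hd.mul_left z)
  refine le_trans ?_ (sum_le_sum h2)
  rw [sum_sub_distrib, sum_const, sum_boole, nsmul_eq_mul]
  set U := R.filter fun p : ℕ => (p : ℤ) ∣ s * dt v v with hU
  have h3 : U.card ≤ 9 := by
    by_contra hn
    have h4 : ∏ p ∈ U, p ∣ (s * dt v v).natAbs :=
      Finset.prod_primes_dvd _ (fun p hp => (hR p (mem_filter.1 hp).1).1.prime)
        fun p hp => Int.natCast_dvd.1 (mem_filter.1 hp).2
    have h5 : Y ^ U.card ≤ ∏ p ∈ U, p :=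
      pow_card_le_prod _ _ _ fun p hp => (hR p (mem_filter.1 hp).1).2
    have h6 := Nat.le_of_dvd (Int.natAbs_pos.2 h0.ne') h4
    have h7 : Y ^ 10 ≤ Y ^ U.card := Nat.pow_le_pow_right (by omega) (by omega)
    have h8 : (s * dt v v).natAbs ≤ 9 * Y ^ 8 := by
      zify
      rwa [abs_of_pos h0]
    have h9 : Y ^ 2 * Y ^ 8 ≤ 9 * Y ^ 8 := by
      rw [← pow_add]
      exact h7.trans (h5.trans (h6.trans h8))
    have h10 := Nat.le_of_mul_le_mul_right h9 (by positivity)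
    nlinarith
  have h4 : (U.card : ℝ) ≤ 9 := by exact_mod_cast h3
  have h5 : (36 : ℝ) ≤ R.card := by exact_mod_cast hY.trans hYR
  linarith

noncomputable def AA (P : Finset V) (p r : ℕ) : ℝ :=
  ∑ a ∈ P, ∑ b ∈ P, gg p (a - b) * gg r (a - b)

noncomputable def t1 (P : Finset V) (p r : ℕ) : ℝ :=
  ‖∑ a ∈ P, ∑ b ∈ P, DD p (a - b) * DD r (a - b)‖

noncomputable def t2 (P : Finset V) (p r : ℕ) : ℝ :=
  ‖∑ a ∈ P, ∑ b ∈ P, DD p (a - b) * dl r (a - b)‖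

lemma AA_diag (P : Finset V) (p : ℕ) : |AA P p p| ≤ 4 * (P.card : ℝ) ^ 2 := by
  refine (abs_sum_le_sum_abs _ _).trans ?_
  refine (sum_le_card_nsmul _ _ (P.card * 4 : ℝ) fun a _ => ?_).trans (by simp; linarith)
  refine (abs_sum_le_sum_abs _ _).trans ?_
  refine (sum_le_card_nsmul _ _ (4 : ℝ) fun b _ => ?_).trans (by simp)
  rw [abs_mul]
  have := abs_gg p (a - b)
  nlinarith [abs_nonneg (gg p (a - b))]

lemma AA_off (P : Finset V) {p r : ℕ} (hp : p.Prime) (hr : r.Prime) (hp2 : p ≠ 2) (hr2 : r ≠ 2)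
    (hpr : p ≠ r) (hP : ∀ a ∈ P, ∀ i, 0 ≤ a i ∧ a i < p * r) :
    |AA P p r| ≤ t1 P p r + r * t2 P p r + p * t2 P r p + p * r * P.card := by
  have h1 : (AA P p r : ℂ) = (∑ a ∈ P, ∑ b ∈ P, DD p (a - b) * DD r (a - b)) -
      r * (∑ a ∈ P, ∑ b ∈ P, DD p (a - b) * dl r (a - b)) -
      p * (∑ a ∈ P, ∑ b ∈ P, DD r (a - b) * dl p (a - b)) + p * r * P.card := by
    rw [← T3 P hp hr hpr hP]
    simp only [AA, Complex.ofReal_sum, Complex.ofReal_mul, gg_eq hp hp2, gg_eq hr hr2, mul_sum,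
      ← sum_sub_distrib, ← sum_add_distrib]
    refine sum_congr rfl fun a _ => sum_congr rfl fun b _ => ?_
    ring
  rw [← Real.norm_eq_abs, ← Complex.norm_real, h1]
  refine (norm_add_le _ _).trans (add_le_add ((norm_sub_le _ _).trans (add_le_add
    ((norm_sub_le _ _).trans (le_of_eq ?_)) (le_of_eq ?_))) (le_of_eq ?_))
  · rw [norm_mul, Complex.norm_natCast, t1, t2]
  · rw [norm_mul, Complex.norm_natCast, t2]
  · simp

section
variable (P : Finset V) (N X Y : ℕ) (R : Finset ℕ) (hR : ∀ p ∈ R, p.Prime ∧ Y ≤ p ∧ p ≤ X)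
  (hY : 36 ≤ Y) (hYX : Y ≤ X) (hN : N < Y ^ 2) (hP : ∀ a ∈ P, ∀ i, 0 ≤ a i ∧ a i ≤ N)
include hR hY hYX hN hP

lemma sum_t1 : ∑ q ∈ R.offDiag, t1 P q.1 q.2 ≤ 27648 * (X : ℝ) ^ 6 * P.card / Y ^ 2 := by
  have hY0 : (0 : ℝ) < Y := by exact_mod_cast (by omega : 0 < Y)
  have key : ∀ O ⊆ R.offDiag, (∀ q ∈ O, ∀ q' ∈ O, q.1 = q'.2 → q.2 = q'.1 → False) →
      ∑ q ∈ O, t1 P q.1 q.2 ≤ 13824 * (X : ℝ) ^ 6 * P.card / Y ^ 2 := by
    intro O hO h2
    have h1 := T1sum P N X (by omega) (hN.le.trans (Nat.pow_le_pow_left hYX 2))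
      (fun a ha i => by rw [abs_of_nonneg (hP a ha i).1]; exact (hP a ha i).2) O
      (fun q hq => by
        obtain ⟨h3, h4, h5⟩ := mem_offDiag.1 (hO hq)
        exact ⟨(hR _ h3).1, (hR _ h4).1, h5, (hR _ h3).2.2, (hR _ h4).2.2⟩) h2
    refine le_trans (sum_le_sum fun q hq => ?_) (le_trans (le_of_eq (mul_sum _ _ _).symm)
      ((mul_le_mul_of_nonneg_left h1 (show 0 ≤ ((Y : ℝ) * Y)⁻¹ by positivity)).trans
        (le_of_eq ?_)))
    · obtain ⟨h3, h4, -⟩ := mem_offDiag.1 (hO hq)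
      rw [t1, T1 P (hR _ h3).1.ne_zero (hR _ h4).1.ne_zero]
      gcongr
      · exact (hR _ h3).2.1
      · exact (hR _ h4).2.1
    · push_cast
      field_simp
      ring
  rw [← sum_filter_add_sum_filter_not _ (fun q : ℕ × ℕ => q.1 < q.2)]
  refine (add_le_add (key _ (filter_subset _ _) ?_) (key _ (filter_subset _ _) ?_)).trans
    (le_of_eq (by ring))
  · intro q hq q' hq' h1 h2
    have := (mem_filter.1 hq).2
    have := (mem_filter.1 hq').2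
    omega
  · intro q hq q' hq' h1 h2
    have := (mem_filter.1 hq).2
    have := (mem_filter.1 hq').2
    have := (mem_offDiag.1 (mem_filter.1 hq).1).2.2
    omega

lemma sum_t2 {r : ℕ} (hr : r ∈ R) :
    ∑ p ∈ R.erase r, t2 P p r ≤ 13824 * (X : ℝ) ^ 3 * P.card / Y := by
  have hY0 : (0 : ℝ) < Y := by exact_mod_cast (by omega : 0 < Y)
  have h1 := T2sum P X r (by omega) (hR r hr).1 (fun a ha i => ⟨(hP a ha i).1, by
      refine (hP a ha i).2.trans ?_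
      have : N ≤ X * r := hN.le.trans (by rw [sq]; exact Nat.mul_le_mul hYX (hR r hr).2.1)
      exact_mod_cast this⟩) (R.erase r)
    fun p hp => ⟨(hR p (mem_erase.1 hp).2).1, (mem_erase.1 hp).1, (hR p (mem_erase.1 hp).2).2.2⟩
  refine le_trans (sum_le_sum fun p hp => ?_) (le_trans (le_of_eq (mul_sum _ _ _).symm)
    ((mul_le_mul_of_nonneg_left h1 (show 0 ≤ (Y : ℝ)⁻¹ by positivity)).trans (le_of_eq ?_)))
  · rw [t2, T2]
    gcongr
    exact (hR _ (mem_erase.1 hp).2).2.1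
  · push_cast
    field_simp
    ring

lemma upper (e : ℕ → ℝ) (he : ∀ p, |e p| ≤ 1) :
    ∑ a ∈ P, ∑ b ∈ P, (∑ p ∈ R, e p * gg p (a - b)) ^ 2 ≤
      R.card * (4 * (P.card : ℝ) ^ 2) + (27648 * (X : ℝ) ^ 6 * P.card / Y ^ 2 +
        2 * (X * (R.card * (13824 * (X : ℝ) ^ 3 * P.card / Y))) + R.card ^ 2 * (X ^ 2 * P.card)) := by
  classical
  have h1 : ∑ a ∈ P, ∑ b ∈ P, (∑ p ∈ R, e p * gg p (a - b)) ^ 2 =
      ∑ q ∈ R ×ˢ R, e q.1 * e q.2 * AA P q.1 q.2 := by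
    have h0 : ∀ v, (∑ p ∈ R, e p * gg p v) ^ 2 =
        ∑ q ∈ R ×ˢ R, e q.1 * e q.2 * (gg q.1 v * gg q.2 v) := by
      intro v
      rw [sq, sum_mul_sum, sum_product]
      refine sum_congr rfl fun p _ => sum_congr rfl fun r _ => ?_
      ring
    simp only [h0, AA, mul_sum]
    rw [sum_congr rfl fun a _ => sum_comm, sum_comm]
  have h2 : ∀ q ∈ R ×ˢ R, e q.1 * e q.2 * AA P q.1 q.2 ≤ |AA P q.1 q.2| := by
    intro q _
    refine (le_abs_self _).trans ?_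
    rw [abs_mul, abs_mul]
    exact mul_le_of_le_one_left (abs_nonneg _) (mul_le_one₀ (he _) (abs_nonneg _) (he _))
  rw [h1]
  refine (sum_le_sum h2).trans ?_
  rw [← diag_union_offDiag, sum_union (disjoint_diag_offDiag R), sum_diag]
  refine add_le_add ((sum_le_card_nsmul _ _ _ fun p _ => AA_diag P p).trans (by simp)) ?_
  have h3 : ∀ q ∈ R.offDiag, |AA P q.1 q.2| ≤
      t1 P q.1 q.2 + X * t2 P q.1 q.2 + X * t2 P q.2 q.1 + X ^ 2 * P.card := by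
    intro q hq
    obtain ⟨h3, h4, h5⟩ := mem_offDiag.1 hq
    obtain ⟨a1, a2, a3⟩ := hR _ h3
    obtain ⟨b1, b2, b3⟩ := hR _ h4
    refine (AA_off P a1 b1 (by omega) (by omega) h5 fun a ha i => ⟨(hP a ha i).1,
      (hP a ha i).2.trans_lt ?_⟩).trans ?_
    · have : N < q.1 * q.2 := hN.trans_le (by rw [sq]; exact Nat.mul_le_mul a2 b2)
      exact_mod_cast this
    · have : 0 ≤ t2 P q.1 q.2 := norm_nonneg _
      have : 0 ≤ t2 P q.2 q.1 := norm_nonneg _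
      rw [sq]
      gcongr
  refine (sum_le_sum h3).trans ?_
  simp only [sum_add_distrib, ← mul_sum]
  have h4 := sum_t1 P N X Y R hR hY hYX hN hP
  have h5 : ∑ r ∈ R, ∑ p ∈ R.erase r, t2 P p r ≤
      R.card * (13824 * (X : ℝ) ^ 3 * P.card / Y) :=
    (sum_le_card_nsmul _ _ _ fun r hr => sum_t2 P N X Y R hR hY hYX hN hP hr).trans (by simp)
  have h6 : ∑ q ∈ R.offDiag, t2 P q.1 q.2 = ∑ r ∈ R, ∑ p ∈ R.erase r, t2 P p r :=
    sum_finset_product_right _ _ _ fun q => by simp only [mem_offDiag, mem_erase]; tauto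
  have h7 : ∑ q ∈ R.offDiag, t2 P q.2 q.1 = ∑ r ∈ R, ∑ p ∈ R.erase r, t2 P p r :=
    sum_finset_product _ _ _ fun q => by simp only [mem_offDiag, mem_erase]; tauto
  have h8 : ∑ _q ∈ R.offDiag, (P.card : ℝ) ≤ (R.card : ℝ) ^ 2 * P.card := by
    rw [sum_const, nsmul_eq_mul]
    gcongr
    have : R.offDiag.card ≤ R.card ^ 2 := by
      rw [offDiag_card, sq]
      omega
    exact_mod_cast this
  rw [h6, h7]
  have h9 : (0 : ℝ) ≤ X := Nat.cast_nonneg X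
  have h10 := mul_le_mul_of_nonneg_left h5 h9
  have h11 := mul_le_mul_of_nonneg_left h8 (sq_nonneg (X : ℝ))
  linarith

end

lemma dt_le {N : ℕ} {a b : V} (ha : ∀ i, 0 ≤ a i ∧ a i ≤ N) (hb : ∀ i, 0 ≤ b i ∧ b i ≤ N) :
    dt (a - b) (a - b) ≤ 3 * (N : ℤ) ^ 2 := by
  have h : ∀ i, (a i - b i) * (a i - b i) ≤ (N : ℤ) ^ 2 := fun i => by
    rw [← sq]
    exact sq_le_sq' (by linarith [(ha i).1, (hb i).2]) (by linarith [(ha i).2, (hb i).1])
  simp only [dt, Pi.sub_apply]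
  linarith [h 0, h 1, h 2]

lemma dt_nonneg (w : V) : 0 ≤ dt w w :=
  add_nonneg (add_nonneg (mul_self_nonneg _) (mul_self_nonneg _)) (mul_self_nonneg _)

theorem edge (P : Finset V) (N Y t : ℕ) (R : Finset ℕ)
    (hR : ∀ p ∈ R, p.Prime ∧ Y ≤ p ∧ p ≤ Y * t) (hY : 36 ≤ Y) (ht : 1 ≤ t) (hYR : Y ≤ R.card)
    (hN : N < Y ^ 2) (hP : ∀ a ∈ P, ∀ i, 0 ≤ a i ∧ a i ≤ N) (s : ℤ) (hs : 0 < s)
    (hsN : s ≤ 3 * (N : ℤ) ^ 2) (G : Finset (V × V))
    (hG : ∀ e ∈ G, e.1 ∈ P ∧ e.2 ∈ P ∧ dt (e.1 - e.2) (e.1 - e.2) ≠ 0 ∧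
      IsSquare (s * dt (e.1 - e.2) (e.1 - e.2))) :
    (G.card : ℝ) ≤ 64 * (P.card : ℝ) ^ 2 / Y + 10 ^ 6 * (t : ℝ) ^ 6 * Y ^ 2 * P.card := by
  have h1 := upper P N (Y * t) Y R hR hY (Nat.le_mul_of_pos_right _ ht) hN hP
    (fun p => (jacobiSym (-s) p : ℝ)) fun p => abs_jac _ _
  have h2 : (G.card : ℝ) * ((R.card : ℝ) / 4) ^ 2 ≤
      ∑ a ∈ P, ∑ b ∈ P, (∑ p ∈ R, (jacobiSym (-s) p : ℝ) * gg p (a - b)) ^ 2 := by
    rw [← sum_product' P P, ← nsmul_eq_mul]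
    refine le_trans (card_nsmul_le_sum _ _ _ fun e he => ?_)
      (sum_le_sum_of_subset_of_nonneg (fun e he => mem_product.2 ⟨(hG e he).1, (hG e he).2.1⟩)
        fun _ _ _ => sq_nonneg _)
    obtain ⟨a1, a2, a3, a4⟩ := hG e he
    have a5 := dt_le (hP _ a1) (hP _ a2)
    have a6 : 0 < dt (e.1 - e.2) (e.1 - e.2) := lt_of_le_of_ne (dt_nonneg _) a3.symm
    have a7 : (N : ℤ) ≤ (Y : ℤ) ^ 2 := by exact_mod_cast hN.le
    have a8 := lower Y s R (fun p hp => ⟨(hR p hp).1, (hR p hp).2.1⟩) hY hYR _ (mul_pos hs a6)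
      (calc _ ≤ (3 * (N : ℤ) ^ 2) * (3 * (N : ℤ) ^ 2) := by gcongr
        _ ≤ (3 * ((Y : ℤ) ^ 2) ^ 2) * (3 * ((Y : ℤ) ^ 2) ^ 2) := by gcongr
        _ = _ := by ring) a4
    gcongr
  have hY0 : (0 : ℝ) < Y := by exact_mod_cast (by omega : 0 < Y)
  have hYR' : (Y : ℝ) ≤ R.card := by exact_mod_cast hYR
  have ht' : (1 : ℝ) ≤ t := by exact_mod_cast ht
  have hR0 : (0 : ℝ) < R.card := hY0.trans_le hYR'
  have h3 := h2.trans h1
  push_cast at h3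
  refine le_of_mul_le_mul_right (h3.trans ?_) (show 0 < ((R.card : ℝ) / 4) ^ 2 by positivity)
  generalize (R.card : ℝ) = r at *
  generalize hn : (P.card : ℝ) = n at *
  have hn0 : 0 ≤ n := hn ▸ Nat.cast_nonneg _
  generalize (Y : ℝ) = y at *
  generalize (t : ℝ) = u at *
  have b1 : r * (4 * n ^ 2) ≤ 64 * n ^ 2 / y * (r / 4) ^ 2 := by
    calc _ = 4 * n ^ 2 * r * y / y := by field_simp
      _ ≤ 4 * n ^ 2 * r * r / y := by gcongr
      _ = _ := by ring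
  have b2 : 27648 * (y * u) ^ 6 * n / y ^ 2 ≤ 27648 * (u ^ 6 * y ^ 2 * n * r ^ 2) := by
    calc _ = 27648 * (u ^ 6 * y ^ 2 * n * y ^ 2) := by field_simp
      _ ≤ _ := by gcongr
  have b3 : 2 * (y * u * (r * (13824 * (y * u) ^ 3 * n / y))) ≤
      27648 * (u ^ 6 * y ^ 2 * n * r ^ 2) := by
    calc _ = 27648 * (u ^ 4 * y ^ 2 * n * (r * y)) := by field_simp; ring
      _ ≤ 27648 * (u ^ 6 * y ^ 2 * n * (r * r)) := by
        gcongr
        norm_num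
      _ = _ := by ring
  have b4 : r ^ 2 * ((y * u) ^ 2 * n) ≤ u ^ 6 * y ^ 2 * n * r ^ 2 := by
    calc _ = u ^ 2 * y ^ 2 * n * r ^ 2 := by ring
      _ ≤ _ := by
        gcongr
        norm_num
  have b5 : 0 ≤ u ^ 6 * y ^ 2 * n * r ^ 2 := by positivity
  nlinarith

end Pool.Agent.MP_36f34d_co.H14
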