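import Pool.Agent.MP_36f34d_co.H14.LS

/-!
The Fourier transform of the cone `|ξ|² = 0` modulo an odd prime.
-/

set_option autoImplicit false

open Finset

namespace Pool.Agent.MP_36f34d_co.H14

section
variable (p : ℕ) [Fact p.Prime]

noncomputable def qc : MulChar (ZMod p) ℂ :=
  (quadraticChar (ZMod p)).ringHomComp (Int.castRingHom ℂ)

noncomputable def gs : ℂ := gaussSum (qc p) ZMod.stdAddChar

variable {p}

lemma qc_sq {t : ZMod p} (ht : t ≠ 0) : qc p t * qc p t = 1 := by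
  have := quadraticChar_sq_one ht
  simp only [qc, MulChar.ringHomComp_apply, eq_intCast]
  rw [← Int.cast_mul, ← sq, this, Int.cast_one]

lemma qc_ne (hp : p ≠ 2) : qc p ≠ 1 :=
  (MulChar.ringHomComp_ne_one_iff (RingHom.injective_int _)).2
    (quadraticChar_ne_one ((ZMod.ringChar_zmod_n p).substr hp))

lemma gs_four (hp : p ≠ 2) : gs p ^ 4 = (p : ℂ) ^ 2 := by
  have h : gs p ^ 2 = qc p (-1) * Fintype.card (ZMod p) :=
    gaussSum_sq (qc_ne hp) ((quadraticChar_isQuadratic (ZMod p)).comp _)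
      (ZMod.isPrimitive_stdAddChar p)
  rw [ZMod.card] at h
  have h2 : qc p (-1) * qc p (-1) = 1 := qc_sq (neg_ne_zero.2 one_ne_zero)
  calc gs p ^ 4 = (gs p ^ 2) ^ 2 := by ring
    _ = (qc p (-1) * qc p (-1)) * (p : ℂ) ^ 2 := by rw [h]; ring
    _ = _ := by rw [h2, one_mul]

lemma gs_mul (hp : p ≠ 2) (c : ZMod p) :
    ∑ r : ZMod p, qc p r * ZMod.stdAddChar (c * r) = qc p c * gs p := by
  rcases eq_or_ne c 0 with rfl | hc
  · simp [MulChar.sum_eq_zero_of_ne_one (qc_ne hp), MulChar.map_zero]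
  · have h := gaussSum_mulShift (qc p) ZMod.stdAddChar (Units.mk0 c hc)
    rw [gs, ← h, ← mul_assoc, Units.val_mk0, qc_sq hc, one_mul]
    rfl

lemma sq_sum (hp : p ≠ 2) {t : ZMod p} (ht : t ≠ 0) :
    ∑ x : ZMod p, (ZMod.stdAddChar (t * x ^ 2) : ℂ) = qc p t * gs p := by
  classical
  rw [← gs_mul hp, ← sum_fiberwise (s := univ) (g := fun x : ZMod p => x ^ 2)]
  have h1 : ∀ y : ZMod p, ∑ x ∈ univ.filter (fun x : ZMod p => x ^ 2 = y),
      (ZMod.stdAddChar (t * x ^ 2) : ℂ) =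
      qc p y * ZMod.stdAddChar (t * y) + ZMod.stdAddChar (y * t) := by
    intro y
    rw [sum_congr rfl fun x hx => by rw [(mem_filter.1 hx).2], sum_const, nsmul_eq_mul]
    have h2 := quadraticChar_card_sqrts ((ZMod.ringChar_zmod_n p).substr hp) y
    rw [Set.toFinset_ofPred] at h2
    have h3 : ((univ.filter (fun x : ZMod p => x ^ 2 = y)).card : ℂ) = qc p y + 1 := by
      simp only [qc, MulChar.ringHomComp_apply, eq_intCast]
      exact_mod_cast h2
    rw [h3, mul_comm y t]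
    ring
  simp only [h1]
  rw [sum_add_distrib, AddChar.sum_mulShift _ (ZMod.isPrimitive_stdAddChar p), if_neg ht]
  simp

lemma two_ne (hp : p ≠ 2) : (2 : ZMod p) ≠ 0 := by
  have := Ring.two_ne_zero (R := ZMod p) ((ZMod.ringChar_zmod_n p).substr hp)
  exact this

lemma sq_sum' (hp : p ≠ 2) {t : ZMod p} (ht : t ≠ 0) (u : ZMod p) :
    ∑ x : ZMod p, (ZMod.stdAddChar (t * x ^ 2 + x * u) : ℂ) =
      qc p t * gs p * ZMod.stdAddChar (-u ^ 2 * (4 * t)⁻¹) := by
  rw [← sq_sum hp ht, sum_mul, ← Equiv.sum_comp (Equiv.subRight (u * (2 * t)⁻¹))]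
  refine sum_congr rfl fun x _ => ?_
  rw [← AddChar.map_add_eq_mul, Equiv.subRight_apply]
  congr 1
  have h2 := two_ne hp
  have h4 : (4 : ZMod p) = 2 * 2 := by norm_num
  rw [h4]
  field_simp
  ring

lemma cone0 (hp : p ≠ 2) (v : V) :
    ∑ y ∈ univ.filter (fun y : Fin 3 → ZMod p => y 0 ^ 2 + y 1 ^ 2 + y 2 ^ 2 = 0), ch p v y =
      p * qc p ((-dt v v : ℤ) : ZMod p) + (p : ℂ) ^ 2 * if ∀ i, (p : ℤ) ∣ v i then 1 else 0 := by
  classical
  have hp0 : (p : ℂ) ≠ 0 := by exact_mod_cast (Fact.out : p.Prime).ne_zero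
  refine mul_left_cancel₀ hp0 ?_
  have h1 : (p : ℂ) * ∑ y ∈ univ.filter
      (fun y : Fin 3 → ZMod p => y 0 ^ 2 + y 1 ^ 2 + y 2 ^ 2 = 0), ch p v y =
      ∑ t : ZMod p, ∏ i, ∑ x : ZMod p,
        (ZMod.stdAddChar (t * x ^ 2 + x * (v i : ZMod p)) : ℂ) := by
    simp only [prod_univ_sum, Fintype.piFinset_univ]
    rw [sum_comm, sum_filter, mul_sum]
    refine sum_congr rfl fun y _ => ?_
    have h2 : ∀ t : ZMod p, ∏ i, (ZMod.stdAddChar (t * y i ^ 2 + y i * (v i : ZMod p)) : ℂ) =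
        ZMod.stdAddChar (t * (y 0 ^ 2 + y 1 ^ 2 + y 2 ^ 2)) * ch p v y := by
      intro t
      simp only [ch, Fin.prod_univ_three, mul_add, AddChar.map_add_eq_mul]
      ring
    simp only [h2]
    rw [← sum_mul, AddChar.sum_mulShift _ (ZMod.isPrimitive_stdAddChar p), ZMod.card]
    split_ifs <;> simp
  rw [h1, ← add_sum_erase _ _ (mem_univ (0 : ZMod p)), add_comm, mul_add]
  congr 1
  · have h3 : ∀ t ∈ univ.erase (0 : ZMod p), ∏ i, ∑ x : ZMod p,
        (ZMod.stdAddChar (t * x ^ 2 + x * (v i : ZMod p)) : ℂ) =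
        gs p ^ 3 * (qc p (4 * t)⁻¹ * ZMod.stdAddChar (((-dt v v : ℤ) : ZMod p) * (4 * t)⁻¹)) := by
      intro t ht
      have ht0 := (mem_erase.1 ht).1
      have h4 : qc p (4 * t)⁻¹ = qc p t := by
        have h5 : (4 * t)⁻¹ = t * ((2 * t)⁻¹ * (2 * t)⁻¹) := by
          have h2 := two_ne hp
          have h4 : (4 : ZMod p) = 2 * 2 := by norm_num
          rw [h4]
          field_simp
        rw [h5, map_mul, map_mul, qc_sq (inv_ne_zero (mul_ne_zero (two_ne hp) ht0)), mul_one]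
      have h6 : ((-dt v v : ℤ) : ZMod p) * (4 * t)⁻¹ = -(v 0 : ZMod p) ^ 2 * (4 * t)⁻¹ +
          -(v 1 : ZMod p) ^ 2 * (4 * t)⁻¹ + -(v 2 : ZMod p) ^ 2 * (4 * t)⁻¹ := by
        simp only [dt]
        push_cast
        ring
      simp only [sq_sum' hp ht0]
      simp only [Fin.prod_univ_three, h4, h6, AddChar.map_add_eq_mul]
      linear_combination (qc p t * gs p ^ 3 * ZMod.stdAddChar (-(v 0 : ZMod p) ^ 2 * (4 * t)⁻¹) *
        ZMod.stdAddChar (-(v 1 : ZMod p) ^ 2 * (4 * t)⁻¹) *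
        ZMod.stdAddChar (-(v 2 : ZMod p) ^ 2 * (4 * t)⁻¹)) * qc_sq ht0
    rw [sum_congr rfl h3, ← mul_sum, sum_erase _ (by simp [MulChar.map_zero])]
    have h4 : (4 : ZMod p) ≠ 0 := by
      rw [show (4 : ZMod p) = 2 * 2 by norm_num]
      exact mul_ne_zero (two_ne hp) (two_ne hp)
    have h7 := Equiv.sum_comp ((Equiv.mulLeft₀ (4 : ZMod p) h4).trans (Equiv.inv (ZMod p)))
      (fun r => qc p r * ZMod.stdAddChar (((-dt v v : ℤ) : ZMod p) * r))
    rw [gs_mul hp] at h7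
    simp only [Equiv.trans_apply, Equiv.mulLeft₀_apply, Equiv.inv_apply] at h7
    rw [h7]
    linear_combination qc p ((-dt v v : ℤ) : ZMod p) * gs_four hp
  · simp only [zero_mul, zero_add, AddChar.sum_mulShift _ (ZMod.isPrimitive_stdAddChar p),
      ZMod.card, ZMod.intCast_zmod_eq_zero_iff_dvd]
    split_ifs with h
    · simp [h]
      ring
    · push Not at h
      obtain ⟨i, hi⟩ := h
      rw [prod_eq_zero (mem_univ i) (by simp [hi])]
      simp

end

/-- nonzero points of the cone modulo `p`, as integer vectors -/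
noncomputable def cone (p : ℕ) : Finset V :=
  (Fintype.piFinset fun _ => Ico (0 : ℤ) p).filter fun x => x ≠ 0 ∧ (p : ℤ) ∣ dt x x

theorem cone_sum (p : ℕ) (hpp : p.Prime) (hp : p ≠ 2) (v : V) :
    ∑ x ∈ cone p, E ((dt v x : ℝ) / p) =
      p * (jacobiSym (-dt v v) p : ℂ) - 1 +
        (p : ℂ) ^ 2 * if ∀ i, (p : ℤ) ∣ v i then 1 else 0 := by
  classical
  have : Fact p.Prime := ⟨hpp⟩
  have h := cone0 hp v
  have h0 : (0 : Fin 3 → ZMod p) ∈ univ.filter
      (fun y : Fin 3 → ZMod p => y 0 ^ 2 + y 1 ^ 2 + y 2 ^ 2 = 0) := by simp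
  rw [← add_sum_erase _ _ h0] at h
  have h1 : ch p v 0 = 1 := by simp [ch]
  have h2 : qc p ((-dt v v : ℤ) : ZMod p) = (jacobiSym (-dt v v) p : ℂ) := by
    rw [← jacobiSym.legendreSym.to_jacobiSym]
    rfl
  rw [h1, h2] at h
  have h3 : ∑ x ∈ cone p, E ((dt v x : ℝ) / p) = ∑ y ∈ (univ.filter
      (fun y : Fin 3 → ZMod p => y 0 ^ 2 + y 1 ^ 2 + y 2 ^ 2 = 0)).erase 0, ch p v y := by
    have hv : ∀ x ∈ cone p, (fun i => (((x i : ZMod p).val : ℕ) : ℤ)) = x := by
      intro x hx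
      funext i
      have := mem_Ico.1 (Fintype.mem_piFinset.1 (mem_filter.1 hx).1 i)
      rw [ZMod.val_intCast, Int.emod_eq_of_lt this.1 this.2]
    refine sum_nbij' (fun x i => (x i : ZMod p)) (fun y i => ((y i).val : ℤ)) ?_ ?_ hv ?_ ?_
    · intro x hx
      refine mem_erase.2 ⟨fun hz => (mem_filter.1 hx).2.1 ?_, mem_filter.2 ⟨mem_univ _, ?_⟩⟩
      · rw [← hv x hx]
        funext i
        have := congrFun hz i
        simp only [Pi.zero_apply] at this ⊢
        rw [this]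
        simp
      · have := (ZMod.intCast_zmod_eq_zero_iff_dvd _ _).2 (mem_filter.1 hx).2.2
        rw [← this, dt]
        push_cast
        ring
    · intro y hy
      refine mem_filter.2 ⟨Fintype.mem_piFinset.2 fun i => mem_Ico.2 ⟨by positivity, ?_⟩, ?_, ?_⟩
      · exact_mod_cast ZMod.val_lt (y i)
      · intro hz
        refine (mem_erase.1 hy).1 (funext fun i => ?_)
        have h5 : (((y i).val : ℕ) : ℤ) = 0 := congrFun hz i
        exact (ZMod.val_eq_zero _).1 (by exact_mod_cast h5)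
      · rw [← ZMod.intCast_zmod_eq_zero_iff_dvd, ← (mem_filter.1 (mem_erase.1 hy).2).2, dt]
        push_cast
        simp only [ZMod.natCast_val, ZMod.cast_id', id]
        ring
    · intro y _
      funext i
      simp
    · intro x _
      simp only [ch, ← Int.cast_mul, psi_int, Fin.prod_univ_three, ← E_add, dt]
      congr 1
      push_cast
      ring
  rw [h3]
  linear_combination h

end Pool.Agent.MP_36f34d_co.H14
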