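import Pool.Agent.MP_36f34d_co.H14.Quad

/-!
From points of Euclidean space to integer vectors.
-/

set_option autoImplicit false

open Finset

namespace Pool.Agent.MP_36f34d_co.H14

noncomputable def pt (a : V) : EuclideanSpace ℝ (Fin 3) := WithLp.toLp 2 fun i => (a i : ℝ)

lemma dist_pt (a b : V) : dist (pt a) (pt b) ^ 2 = (dt (a - b) (a - b) : ℝ) := by
  rw [EuclideanSpace.dist_sq_eq, Fin.sum_univ_three]
  simp only [pt, dt, Pi.sub_apply, Real.dist_eq, sq_abs]
  push_cast
  ring

lemma det_ne (q : Fin 4 → V) (h : ¬ Coplanar ℝ (Set.range fun i => pt (q i))) : det q ≠ 0 := by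
  intro h0
  apply h
  rw [coplanar_iff_finrank_le_two,
    finrank_vectorSpan_le_iff_not_affineIndependent ℝ _ (n := 2) (by simp), affineIndependent_iff]
  intro hi
  obtain ⟨v, hv, hM⟩ := (Matrix.exists_vecMul_eq_zero_iff
    (M := Matrix.of ![q 1 - q 0, q 2 - q 0, q 3 - q 0])).2 (by
      rw [Matrix.det_fin_three, ← h0]
      simp only [det, dt, cr, Matrix.of_apply, Matrix.cons_val]
      ring)
  have h1 := hi univ ![-((v 0 : ℝ) + v 1 + v 2), v 0, v 1, v 2]
    (by simp only [Fin.sum_univ_four, Matrix.cons_val]; ring) (by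
      ext j
      have h2 := congrFun hM j
      simp only [Matrix.vecMul, dotProduct, Fin.sum_univ_three, Matrix.of_apply, Matrix.cons_val,
        Pi.sub_apply, Pi.zero_apply] at h2
      have h3 : (v 0 : ℝ) * (q 1 j - q 0 j) + v 1 * (q 2 j - q 0 j) + v 2 * (q 3 j - q 0 j) = 0 := by
        exact_mod_cast h2
      simp only [Fin.sum_univ_four, Matrix.cons_val, PiLp.add_apply, PiLp.smul_apply, pt,
        smul_eq_mul, PiLp.zero_apply]
      linear_combination h3)
  refine hv (funext fun i => ?_)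
  have a1 := h1 1 (mem_univ _)
  have a2 := h1 2 (mem_univ _)
  have a3 := h1 3 (mem_univ _)
  simp only [Matrix.cons_val, Int.cast_eq_zero] at a1 a2 a3
  fin_cases i
  exacts [a1, a2, a3]

end Pool.Agent.MP_36f34d_co.H14
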