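import Mathlib

/-!
A large sieve inequality in three dimensions for well spaced rational points.
-/

set_option autoImplicit false

open Finset

namespace Pool.Agent.MP_36f34d_co.H14

abbrev V := Fin 3 → ℤ

def dt (a b : V) : ℤ := a 0 * b 0 + a 1 * b 1 + a 2 * b 2

noncomputable def E (x : ℝ) : ℂ := Complex.exp (2 * Real.pi * Complex.I * x)

lemma E_add (x y : ℝ) : E (x + y) = E x * E y := by
  rw [E, E, E, ← Complex.exp_add]
  congr 1
  push_cast
  ring

lemma norm_E (x : ℝ) : ‖E x‖ = 1 := by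
  have : E x = Complex.exp (((2 * Real.pi * x : ℝ) : ℂ) * Complex.I) := by
    rw [E]
    congr 1
    push_cast
    ring
  rw [this, Complex.norm_exp_ofReal_mul_I]

lemma conj_E (x : ℝ) : (starRingEnd ℂ) (E x) = E (-x) := by
  rw [E, E, ← Complex.exp_conj]
  congr 1
  simp [Complex.conj_ofReal, map_ofNat]

lemma psi_int (L : ℕ) [NeZero L] (j : ℤ) :
    (ZMod.stdAddChar (j : ZMod L) : ℂ) = E ((j : ℝ) / L) := by
  rw [ZMod.stdAddChar_coe, E]
  congr 1
  push_cast
  ring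

lemma re_E (x : ℝ) (hx : |x| ≤ 1 / 6) : 1 / 2 ≤ (E x).re := by
  have : E x = Complex.exp (((2 * Real.pi * x : ℝ) : ℂ) * Complex.I) := by
    rw [E]
    congr 1
    push_cast
    ring
  rw [this, Complex.exp_ofReal_mul_I_re, ← Real.cos_abs, ← Real.cos_pi_div_three]
  have hp := Real.pi_pos
  refine Real.cos_le_cos_of_nonneg_of_le_pi (abs_nonneg _) (by linarith) ?_
  rw [abs_mul, abs_of_pos (by positivity)]
  nlinarith

section fin
variable (L : ℕ) [NeZero L]

noncomputable def ch (a : V) (y : Fin 3 → ZMod L) : ℂ :=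
  ∏ i, (ZMod.stdAddChar (y i * (a i : ZMod L)) : ℂ)

lemma ch_add (a : V) (y z : Fin 3 → ZMod L) : ch L a (y + z) = ch L a y * ch L a z := by
  simp only [ch, Pi.add_apply, add_mul, AddChar.map_add_eq_mul, prod_mul_distrib]

lemma ch_conj (a b : V) (y : Fin 3 → ZMod L) :
    ch L a y * (starRingEnd ℂ) (ch L b y) = ch L (a - b) y := by
  simp only [ch, map_prod, ← prod_mul_distrib, ← AddChar.map_neg_eq_conj,
    ← AddChar.map_add_eq_mul, Pi.sub_apply]
  refine prod_congr rfl fun i _ => ?_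
  congr 1
  push_cast
  ring

lemma sum_ch (a : V) (ha : ∀ i, |a i| < L) :
    ∑ y : Fin 3 → ZMod L, ch L a y = if a = 0 then (L : ℂ) ^ 3 else 0 := by
  classical
  have h1 : ∑ y : Fin 3 → ZMod L, ch L a y =
      ∏ i : Fin 3, ∑ t : ZMod L, (ZMod.stdAddChar (t * (a i : ZMod L)) : ℂ) := by
    rw [prod_univ_sum, Fintype.piFinset_univ]
    rfl
  rw [h1]
  simp only [AddChar.sum_mulShift _ (ZMod.isPrimitive_stdAddChar L), ZMod.card]
  split_ifs with h
  · simp [h]
  · obtain ⟨i, hi⟩ := Function.ne_iff.1 h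
    refine prod_eq_zero (mem_univ i) ?_
    rw [if_neg, Nat.cast_zero]
    rw [ZMod.intCast_zmod_eq_zero_iff_dvd]
    intro hd
    exact hi (Int.eq_zero_of_abs_lt_dvd hd (ha i))

lemma parseval (N : ℕ) (hL : 2 * N < L) (P : Finset V) (hP : ∀ a ∈ P, ∀ i, |a i| ≤ N)
    (c : V → ℂ) :
    ∑ y : Fin 3 → ZMod L, ‖∑ a ∈ P, c a * ch L a y‖ ^ 2 = (L : ℝ) ^ 3 * ∑ a ∈ P, ‖c a‖ ^ 2 := by
  classical
  apply Complex.ofReal_injective
  push_cast
  simp only [← Complex.mul_conj']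
  have h1 : ∀ y : Fin 3 → ZMod L, (∑ a ∈ P, c a * ch L a y) *
      (starRingEnd ℂ) (∑ a ∈ P, c a * ch L a y) =
      ∑ a ∈ P, ∑ b ∈ P, c a * (starRingEnd ℂ) (c b) * ch L (a - b) y := by
    intro y
    rw [map_sum, sum_mul_sum]
    refine sum_congr rfl fun a _ => sum_congr rfl fun b _ => ?_
    rw [map_mul, ← ch_conj]
    ring
  simp only [h1]
  rw [sum_comm, mul_sum]
  refine sum_congr rfl fun a ha => ?_
  rw [sum_comm, sum_eq_single a]
  · rw [← mul_sum, sum_ch L _ (by simpa using NeZero.pos L), if_pos (sub_self a)]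
    ring
  · intro b hb hba
    rw [← mul_sum, sum_ch L, if_neg (sub_ne_zero.2 hba.symm), mul_zero]
    intro i
    have h2 := abs_le.1 (hP a ha i)
    have h3 := abs_le.1 (hP b hb i)
    have h4 : (2 * N : ℤ) < L := by exact_mod_cast hL
    rw [Pi.sub_apply, abs_lt]
    constructor <;> linarith [h2.1, h2.2, h3.1, h3.2]
  · intro h
    exact absurd ha h

lemma geo (h N : ℕ) (hL : 6 * N * h ≤ L) (t : ℤ) (ht : |t| ≤ N) :
    (h : ℝ) / 2 ≤ ‖∑ u ∈ range h, (ZMod.stdAddChar ((u : ZMod L) * (t : ZMod L)) : ℂ)‖ := by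
  refine le_trans ?_ (Complex.re_le_norm _)
  rw [Complex.re_sum]
  have hL0 : (0 : ℝ) < L := by exact_mod_cast NeZero.pos L
  calc (h : ℝ) / 2 = ∑ u ∈ range h, (1 / 2 : ℝ) := by simp [div_eq_mul_inv]
    _ ≤ _ := sum_le_sum fun u hu => by
      have h1 : ((u : ZMod L) * (t : ZMod L)) = ((u * t : ℤ) : ZMod L) := by push_cast; rfl
      rw [h1, psi_int]
      refine re_E _ ?_
      rw [abs_div, abs_of_pos hL0, div_le_iff₀ hL0]
      have h2 : (u : ℝ) ≤ h := by exact_mod_cast (mem_range.1 hu).le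
      have h3 : |(t : ℝ)| ≤ N := by exact_mod_cast ht
      have h4 : (6 * N * h : ℝ) ≤ L := by exact_mod_cast hL
      push_cast
      rw [abs_mul, abs_of_nonneg (Nat.cast_nonneg u)]
      have : (u : ℝ) * |(t : ℝ)| ≤ h * N := by gcongr
      linarith

theorem ls0 {ι : Type*} (h N : ℕ) (hh : 0 < h) (hhL : h ≤ L) (hL : 6 * N * h ≤ L)
    (hL2 : 2 * N < L) (J : Finset ι) (x : ι → Fin 3 → ZMod L)
    (hsp : ∀ j ∈ J, ∀ k ∈ J, ∀ u u' : Fin 3 → ℕ, (∀ i, u i < h) → (∀ i, u' i < h) →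
      (∀ i, x j i + u i = x k i + u' i) → j = k)
    (P : Finset V) (hP : ∀ a ∈ P, ∀ i, |a i| ≤ N) :
    (h : ℝ) ^ 3 * ∑ j ∈ J, ‖∑ a ∈ P, ch L a (x j)‖ ^ 2 ≤ 64 * (L : ℝ) ^ 3 * P.card := by
  classical
  have hh0 : (0 : ℝ) < h := by exact_mod_cast hh
  set B : Finset (Fin 3 → ℕ) := Fintype.piFinset fun _ => range h with hB
  set g : ℤ → ℂ := fun t => ∑ u ∈ range h, (ZMod.stdAddChar ((u : ZMod L) * (t : ZMod L)) : ℂ)
    with hg
  have hg1 : ∀ a ∈ P, ((h : ℝ) / 2) ^ 3 ≤ ‖∏ i, g (a i)‖ := by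
    intro a ha
    rw [norm_prod, Fin.prod_univ_three, pow_three, ← mul_assoc]
    have h0 := geo L h N hL _ (hP a ha 0)
    have h1 := geo L h N hL _ (hP a ha 1)
    have h2 := geo L h N hL _ (hP a ha 2)
    gcongr
  set c : V → ℂ := fun a => (∏ i, g (a i))⁻¹ with hc
  set S : (Fin 3 → ZMod L) → ℂ := fun y => ∑ a ∈ P, c a * ch L a y with hS
  have h1 : ∀ y, ∑ a ∈ P, ch L a y = ∑ u ∈ B, S (y + fun i => (u i : ZMod L)) := by
    intro y
    simp only [hS, ch_add]
    rw [sum_comm]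
    refine sum_congr rfl fun a ha => ?_
    have h2 : ∑ u ∈ B, ch L a (fun i => (u i : ZMod L)) = ∏ i, g (a i) := by
      simp only [hg, hB]
      rw [prod_univ_sum]
      rfl
    have h3 : ∏ i, g (a i) ≠ 0 := by
      rw [← norm_pos_iff]
      exact lt_of_lt_of_le (by positivity) (hg1 a ha)
    simp only [← mul_assoc]
    rw [← mul_sum, h2, hc]
    field_simp
  have hBc : (B.card : ℝ) = (h : ℝ) ^ 3 := by
    simp [hB, Fintype.card_piFinset]
  have h2 : ∀ y, ‖∑ a ∈ P, ch L a y‖ ^ 2 ≤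
      (h : ℝ) ^ 3 * ∑ u ∈ B, ‖S (y + fun i => (u i : ZMod L))‖ ^ 2 := by
    intro y
    rw [h1, ← hBc]
    refine le_trans ?_ sq_sum_le_card_mul_sum_sq
    gcongr
    exact norm_sum_le _ _
  have h3 : ∑ j ∈ J, ∑ u ∈ B, ‖S (x j + fun i => (u i : ZMod L))‖ ^ 2 ≤ ∑ y, ‖S y‖ ^ 2 := by
    rw [← sum_product' J B (fun j (u : Fin 3 → ℕ) => ‖S (x j + fun i => (u i : ZMod L))‖ ^ 2),
      ← sum_image (g := fun q : ι × (Fin 3 → ℕ) => x q.1 + fun i => (q.2 i : ZMod L))
        (f := fun y => ‖S y‖ ^ 2)]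
    · exact sum_le_sum_of_subset_of_nonneg (subset_univ _) fun _ _ _ => by positivity
    rintro ⟨j, u⟩ hq ⟨k, u'⟩ hq' he
    simp only [coe_product, Set.mem_prod, mem_coe, hB, Fintype.mem_piFinset, mem_range] at hq hq'
    have hjk : j = k := hsp j hq.1 k hq'.1 u u' hq.2 hq'.2 fun i => congrFun he i
    subst hjk
    refine Prod.ext rfl (funext fun i => ?_)
    have h4 : (u i : ZMod L) = u' i := add_left_cancel (congrFun he i)
    rw [ZMod.natCast_eq_natCast_iff'] at h4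
    rwa [Nat.mod_eq_of_lt ((hq.2 i).trans_le hhL), Nat.mod_eq_of_lt ((hq'.2 i).trans_le hhL)] at h4
  have h4 : ∑ a ∈ P, ‖c a‖ ^ 2 ≤ P.card * (64 / (h : ℝ) ^ 6) := by
    rw [← nsmul_eq_mul]
    refine sum_le_card_nsmul _ _ _ fun a ha => ?_
    have : ‖c a‖ ≤ (((h : ℝ) / 2) ^ 3)⁻¹ := by
      rw [hc, norm_inv]
      exact inv_anti₀ (by positivity) (hg1 a ha)
    calc _ ≤ ((((h : ℝ) / 2) ^ 3)⁻¹) ^ 2 := by gcongr
      _ = _ := by field_simp; norm_num
  calc _ ≤ (h : ℝ) ^ 3 * ∑ j ∈ J, (h : ℝ) ^ 3 *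
        ∑ u ∈ B, ‖S (x j + fun i => (u i : ZMod L))‖ ^ 2 := by
        gcongr with j hj
        exact h2 _
    _ ≤ (h : ℝ) ^ 3 * ((h : ℝ) ^ 3 * ((L : ℝ) ^ 3 * (P.card * (64 / (h : ℝ) ^ 6)))) := by
        rw [← mul_sum]
        gcongr
        refine h3.trans ?_
        rw [hS, parseval L N hL2 P hP]
        gcongr
    _ = _ := by field_simp

end fin

lemma dt_zero (w : V) (h0 : dt w w = 0) (i : Fin 3) : w i = 0 := by
  rw [dt] at h0
  have h1 := mul_self_nonneg (w 0)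
  have h2 := mul_self_nonneg (w 1)
  have h3 := mul_self_nonneg (w 2)
  fin_cases i
  · exact mul_self_eq_zero.1 (show w 0 * w 0 = 0 by linarith)
  · exact mul_self_eq_zero.1 (show w 1 * w 1 = 0 by linarith)
  · exact mul_self_eq_zero.1 (show w 2 * w 2 = 0 by linarith)

lemma small (w : V) (q : ℤ) (hd : q ∣ dt w w) (hw : ∀ i, 4 * w i ^ 2 < q) (i : Fin 3) :
    w i = 0 := by
  refine dt_zero w (Int.eq_zero_of_abs_lt_dvd hd ?_) i
  have h0 := hw 0
  have h1 := hw 1
  have h2 := hw 2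
  rw [abs_lt, dt]
  constructor <;> nlinarith [sq_nonneg (w 0), sq_nonneg (w 1), sq_nonneg (w 2)]

/-- the large sieve for fractions `y j / m j` with `m j ∣ |y j|²` that are distinct modulo one -/
theorem ls {ι : Type*} (J : Finset ι) (y : ι → V) (m : ι → ℕ) (M W N : ℕ)
    (hm : ∀ j ∈ J, 0 < m j ∧ m j ≤ M ∧ (m j : ℤ) ∣ dt (y j) (y j))
    (hne : ∀ j ∈ J, ∀ k ∈ J, (∀ i, ((m j : ℤ) * m k) ∣ y j i * m k - y k i * m j) → j = k)
    (hW : 6 * N ≤ W) (hW0 : 0 < W) (hM : 2 * M ≤ W)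
    (P : Finset V) (hP : ∀ a ∈ P, ∀ i, |a i| ≤ N) :
    ∑ j ∈ J, ‖∑ a ∈ P, E ((dt a (y j) : ℝ) / m j)‖ ^ 2 ≤ 64 * (W : ℝ) ^ 3 * P.card := by
  classical
  set h : ℕ := ∏ j ∈ J, m j with hh
  have hh0 : 0 < h := prod_pos fun j hj => (hm j hj).1
  have : NeZero (W * h) := ⟨(Nat.mul_pos hW0 hh0).ne'⟩
  have hd : ∀ j ∈ J, ∃ r : ℕ, W * h = m j * r := fun j hj =>
    (dvd_prod_of_mem m hj).mul_left W
  choose! r hr using hd
  have key := ls0 (W * h) h N hh0 (Nat.le_mul_of_pos_left _ hW0) (Nat.mul_le_mul_right _ hW)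
    (by
      have : W ≤ W * h := Nat.le_mul_of_pos_right _ hh0
      omega) J (fun j i => ((y j i * r j : ℤ) : ZMod (W * h))) ?_ P hP
  · have h1 : ∀ j ∈ J, ∀ a, ch (W * h) a (fun i => ((y j i * r j : ℤ) : ZMod (W * h))) =
        E ((dt a (y j) : ℝ) / m j) := by
      intro j hj a
      have h2 : (0 : ℝ) < m j := by exact_mod_cast (hm j hj).1
      have h3 : ((W * h : ℕ) : ℝ) = m j * r j := by exact_mod_cast hr j hj
      have h4 : (0 : ℝ) < r j := by
        have : (0 : ℝ) < ((W * h : ℕ) : ℝ) := by exact_mod_cast Nat.mul_pos hW0 hh0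
        rw [h3] at this
        exact pos_of_mul_pos_right this h2.le
      simp only [ch, ← Int.cast_mul, psi_int, Fin.prod_univ_three, ← E_add, h3]
      congr 1
      simp only [dt]
      push_cast
      field_simp
    rw [sum_congr rfl fun j hj => by rw [sum_congr rfl fun a _ => h1 j hj a]] at key
    have h5 : (0 : ℝ) < (h : ℝ) ^ 3 := by positivity
    refine le_of_mul_le_mul_left (key.trans (le_of_eq ?_)) h5
    push_cast
    ring
  · intro j hj k hk u u' hu hu' he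
    refine hne j hj k hk ?_
    have hz : ∀ i, ∃ z : ℤ, y j i * r j - y k i * r k - (W * h : ℕ) * z = (u' i : ℤ) - u i := by
      intro i
      have h1 : ((y j i * r j + u i : ℤ) : ZMod (W * h)) = ((y k i * r k + u' i : ℤ) : ZMod (W * h)) := by
        rw [Int.cast_add, Int.cast_add, Int.cast_natCast, Int.cast_natCast]
        exact he i
      rw [ZMod.intCast_eq_intCast_iff_dvd_sub] at h1
      obtain ⟨z, hz⟩ := h1
      exact ⟨-z, by linear_combination -hz⟩
    choose z hz using hz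
    obtain ⟨hj0, hjM, t, ht⟩ := hm j hj
    obtain ⟨hk0, hkM, t', ht'⟩ := hm k hk
    have hrj : ((W * h : ℕ) : ℤ) = m j * r j := by exact_mod_cast hr j hj
    have hrk : ((W * h : ℕ) : ℤ) = m k * r k := by exact_mod_cast hr k hk
    set w : V := fun i => y j i * m k - y k i * m j - m j * m k * z i with hw
    have hw1 : ∀ i, ((W * h : ℕ) : ℤ) * w i = m j * m k * ((u' i : ℤ) - u i) := by
      intro i
      rw [← hz i, hw]
      linear_combination (y j i * m k) * hrj - (y k i * m j) * hrk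
    have hj1 : (0 : ℤ) < m j := by exact_mod_cast hj0
    have hk1 : (0 : ℤ) < m k := by exact_mod_cast hk0
    have hW1 : (0 : ℤ) < W := by exact_mod_cast hW0
    have hh1 : (0 : ℤ) < h := by exact_mod_cast hh0
    have hw2 : ∀ i, (W : ℤ) * |w i| < m j * m k := by
      intro i
      have h1 : |(u' i : ℤ) - u i| < h := by
        have := hu i
        have := hu' i
        rw [abs_lt]
        constructor <;> omega
      have h2 := congrArg abs (hw1 i)
      rw [abs_mul, abs_mul, abs_of_pos (mul_pos hj1 hk1), Nat.abs_cast] at h2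
      push_cast at h2
      have h3 : (W * |w i|) * h < (m j * m k : ℤ) * h := by
        calc _ = (m j * m k : ℤ) * |(u' i : ℤ) - u i| := by rw [← h2]; ring
          _ < _ := by gcongr
      exact lt_of_mul_lt_mul_right h3 hh1.le
    have hdv : ((m j : ℤ) * m k) ∣ dt w w := by
      refine ⟨t * m k + t' * m j - 2 * dt (y j) (y k) - 2 * m k * dt (y j) z +
        2 * m j * dt (y k) z + m j * m k * dt z z, ?_⟩
      simp only [dt, hw] at ht ht' ⊢
      linear_combination ((m k : ℤ) ^ 2) * ht + ((m j : ℤ) ^ 2) * ht'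
    have hq : (m j : ℤ) * m k * 4 ≤ (W : ℤ) ^ 2 := by
      have h1 : (m j : ℤ) ≤ M := by exact_mod_cast hjM
      have h2 : (m k : ℤ) ≤ M := by exact_mod_cast hkM
      have h3 : (2 * M : ℤ) ≤ W := by exact_mod_cast hM
      calc _ = (2 * m j) * (2 * m k : ℤ) := by ring
        _ ≤ W * W := by gcongr <;> linarith
        _ = _ := by ring
    have hw3 : ∀ i, 4 * w i ^ 2 < (m j : ℤ) * m k := by
      intro i
      have h1 : ((W : ℤ) * |w i|) ^ 2 < (m j * m k : ℤ) ^ 2 := by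
        have := hw2 i
        gcongr
      rw [mul_pow, sq_abs] at h1
      have h2 : (m j * m k : ℤ) * (4 * w i ^ 2) < (m j * m k : ℤ) * (m j * m k) := by
        calc _ = (m j * m k * 4 : ℤ) * w i ^ 2 := by ring
          _ ≤ (W : ℤ) ^ 2 * w i ^ 2 := by gcongr
          _ < _ := by rw [← sq]; exact h1
      exact lt_of_mul_lt_mul_left h2 (mul_pos hj1 hk1).le
    intro i
    have h1 : w i = 0 := small w _ hdv hw3 i
    exact ⟨z i, by simp only [hw] at h1; linarith⟩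

end Pool.Agent.MP_36f34d_co.H14
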