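import Pool.Agent.MP_36f34d_co.H14.Edge
import Pool.Agent.MP_36f34d_co.H14.Circ

/-!
Counting ordered lattice quadruples similar to a fixed lattice tetrahedron.
-/

set_option autoImplicit false

open Finset

namespace Pool.Agent.MP_36f34d_co.H14

lemma primes (ε : ℝ) (hε : 0 < ε) : ∃ K : ℝ, 0 < K ∧ ∀ Y : ℕ, 36 ≤ Y → ∃ t : ℕ, 1 ≤ t ∧
    (t : ℝ) ≤ K * (Y : ℝ) ^ ε ∧
      ∃ R : Finset ℕ, (∀ p ∈ R, p.Prime ∧ Y ≤ p ∧ p ≤ Y * t) ∧ Y ≤ R.card := by
  refine ⟨16 / ε + 33, by positivity, fun Y hY => ?_⟩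
  have hY1 : (36 : ℝ) ≤ Y := by exact_mod_cast hY
  have hY2 : (1 : ℝ) ≤ (Y : ℝ) ^ ε := Real.one_le_rpow (by linarith) hε.le
  set t : ℕ := ⌈(16 / ε + 32) * (Y : ℝ) ^ ε⌉₊ with ht
  have h16 : 0 < 16 / ε := by positivity
  have ht1 : (16 / ε + 32) * (Y : ℝ) ^ ε ≤ t := Nat.le_ceil _
  have ht2 : (t : ℝ) < (16 / ε + 32) * (Y : ℝ) ^ ε + 1 := Nat.ceil_lt_add_one (by positivity)
  have ht3 : (32 : ℝ) ≤ t := by nlinarith
  refine ⟨t, by exact_mod_cast (show (1 : ℝ) ≤ t by linarith), by linarith,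
    Nat.primesLE (Y * t) \ range Y, fun p hp => ?_, ?_⟩
  · obtain ⟨h1, h2⟩ := mem_sdiff.1 hp
    exact ⟨Nat.prime_of_mem_primesLE h1, not_lt.1 fun h => h2 (mem_range.2 h),
      Nat.le_of_mem_primesLE h1⟩
  · have h1 := le_card_sdiff (range Y) (Nat.primesLE (Y * t))
    rw [card_range, Nat.primesLE_card_eq_primeCounting] at h1
    suffices h : 2 * Y ≤ Nat.primeCounting (Y * t) by omega
    have h2 := Chebyshev.pi_ge (Y * t)
    have hX : (36 * 32 : ℝ) ≤ Y * t := by gcongr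
    have l2 := Real.log_two_gt_d9
    have l2' := Real.log_two_lt_d9
    have h3 : Real.log ((Y : ℝ) * t + 1) ≤ 2 * Real.log 2 + (((Y : ℝ) * t + 1) / 4 - 1) := by
      have := Real.log_le_sub_one_of_pos (show 0 < ((Y : ℝ) * t + 1) / 4 by positivity)
      rw [Real.log_div (by positivity) (by norm_num), show (4 : ℝ) = 2 ^ 2 by norm_num,
        Real.log_pow] at this
      push_cast at this
      linarith
    have h4 : Real.log t ≤ 4 * Real.log 2 + ((t : ℝ) / 16 - 1) := by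
      have := Real.log_le_sub_one_of_pos (show 0 < (t : ℝ) / 16 by positivity)
      rw [Real.log_div (by positivity) (by norm_num), show (16 : ℝ) = 2 ^ 4 by norm_num,
        Real.log_pow] at this
      push_cast at this
      linarith
    have h5 : Real.log Y ≤ (Y : ℝ) ^ ε / ε := Real.log_le_rpow_div (by positivity) hε
    have h6 : 8 * Real.log ((Y : ℝ) * t) ≤ t := by
      rw [Real.log_mul (by positivity) (by positivity)]
      have : 16 / ε * (Y : ℝ) ^ ε = 16 * ((Y : ℝ) ^ ε / ε) := by ring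
      nlinarith
    have h7 : 0 < Real.log ((Y : ℝ) * t) := Real.log_pos (by linarith)
    push_cast at h2
    have h8 : ((2 * Y : ℕ) : ℝ) ≤ Nat.primeCounting (Y * t) := by
      refine le_trans ?_ h2
      rw [le_div_iff₀ h7]
      push_cast
      have h9 : (Y : ℝ) * (8 * Real.log ((Y : ℝ) * t)) ≤ Y * t := by gcongr
      nlinarith
    exact_mod_cast h8

theorem edge2 (ε : ℝ) (hε : 0 < ε) : ∃ C : ℝ, 0 < C ∧ ∀ (N : ℕ) (P : Finset V), 1 ≤ N →
    (∀ a ∈ P, ∀ i, 0 ≤ a i ∧ a i ≤ N) → ∀ s : ℤ, 0 < s → s ≤ 3 * (N : ℤ) ^ 2 →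
    ∀ G : Finset (V × V), (∀ e ∈ G, e.1 ∈ P ∧ e.2 ∈ P ∧ dt (e.1 - e.2) (e.1 - e.2) ≠ 0 ∧
      IsSquare (s * dt (e.1 - e.2) (e.1 - e.2))) →
    (G.card : ℝ) ≤ C * (N : ℝ) ^ ε *
      ((P.card : ℝ) ^ ((5 : ℝ) / 3) + P.card * min (P.card : ℝ) N) := by
  obtain ⟨K, hK, hp⟩ := primes (ε / 6) (by positivity)
  refine ⟨64 + 10 ^ 6 * (K ^ 6 * 41 ^ ε) * 3042, by positivity,
    fun N P hN hP s hs hsN G hG => ?_⟩
  have hN1 : (1 : ℝ) ≤ N := by exact_mod_cast hN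
  have hNe : (1 : ℝ) ≤ (N : ℝ) ^ ε := Real.one_le_rpow hN1 hε.le
  have hn0 : (0 : ℝ) ≤ P.card := Nat.cast_nonneg _
  have hC : (0 : ℝ) ≤ 10 ^ 6 * (K ^ 6 * 41 ^ ε) * 3042 := by positivity
  rcases le_total (P.card : ℝ) N with h | h
  · rw [min_eq_left h]
    have h1 : G.card ≤ P.card * P.card := by
      rw [← card_product]
      exact card_le_card fun e he => mem_product.2 ⟨(hG e he).1, (hG e he).2.1⟩
    calc (G.card : ℝ) ≤ 1 * 1 * (0 + P.card * P.card) := by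
          rw [one_mul, one_mul, zero_add]
          exact_mod_cast h1
      _ ≤ _ := by
          gcongr
          · linarith
          · positivity
  rw [min_eq_right h]
  set x : ℝ := (P.card : ℝ) ^ ((1 : ℝ) / 3) with hx
  have hx0 : 0 < x := Real.rpow_pos_of_pos (by linarith) _
  have hx3 : x ^ 3 = P.card := by
    rw [hx, ← Real.rpow_natCast, ← Real.rpow_mul hn0]
    norm_num
  have hx5 : (P.card : ℝ) ^ ((5 : ℝ) / 3) = x ^ 5 := by
    rw [hx, ← Real.rpow_natCast, ← Real.rpow_mul hn0]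
    norm_num
  have hxN : x ≤ 2 * N := by
    have h1 : P.card ≤ (N + 1) ^ 3 := by
      refine (card_le_card (t := Fintype.piFinset fun _ => Icc (0 : ℤ) N)
        fun a ha => Fintype.mem_piFinset.2 fun i => mem_Icc.2 (hP a ha i)).trans ?_
      simp [Fintype.card_piFinset]
    have h2 : x ^ 3 ≤ ((N : ℝ) + 1) ^ 3 := by
      rw [hx3]
      exact_mod_cast h1
    have := le_of_pow_le_pow_left₀ (by norm_num) (by positivity) h2
    linarith
  set Y : ℕ := ⌈x⌉₊ + 38 * Nat.sqrt N with hY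
  have hs1 : 1 ≤ Nat.sqrt N := Nat.le_sqrt.2 (by omega)
  have hs2 : ((Nat.sqrt N : ℕ) : ℝ) ^ 2 ≤ N := by exact_mod_cast Nat.sqrt_le' N
  have hs3 : ((Nat.sqrt N : ℕ) : ℝ) ≤ N := by exact_mod_cast Nat.sqrt_le_self N
  have hs4 : (1 : ℝ) ≤ (Nat.sqrt N : ℕ) := by exact_mod_cast hs1
  have hY1 : x ≤ Y := by
    rw [hY]
    push_cast
    linarith [Nat.le_ceil x]
  have hY2 : (Y : ℝ) ≤ x + 39 * (Nat.sqrt N : ℕ) := by
    rw [hY]
    push_cast
    linarith [Nat.ceil_lt_add_one hx0.le]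
  obtain ⟨t, ht1, ht2, R, hR, hYR⟩ := hp Y (by omega)
  have key := edge P N Y t R hR (by omega) ht1 hYR
    ((Nat.lt_succ_sqrt' N).trans_le (Nat.pow_le_pow_left (by omega) 2)) hP s hs hsN G hG
  have ht6 : (t : ℝ) ^ 6 ≤ K ^ 6 * 41 ^ ε * (N : ℝ) ^ ε := by
    calc (t : ℝ) ^ 6 ≤ (K * (41 * N : ℝ) ^ (ε / 6)) ^ 6 := by
          gcongr
          refine ht2.trans ?_
          gcongr
          linarith
      _ = _ := by
          rw [mul_pow, ← Real.rpow_natCast ((41 * N : ℝ) ^ (ε / 6)),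
            ← Real.rpow_mul (by positivity), show ε / 6 * (6 : ℕ) = ε by push_cast; ring,
            Real.mul_rpow (by norm_num) (by positivity), mul_assoc]
  have hY3 : (Y : ℝ) ^ 2 ≤ 3042 * (x ^ 2 + N) := by
    calc (Y : ℝ) ^ 2 ≤ (x + 39 * (Nat.sqrt N : ℕ)) ^ 2 := by gcongr
      _ ≤ _ := by nlinarith [sq_nonneg (x - 39 * (Nat.sqrt N : ℕ))]
  rw [hx5]
  rw [← hx3] at key ⊢
  have b1 : 64 * (x ^ 3) ^ 2 / Y ≤ 64 * (N : ℝ) ^ ε * (x ^ 5 + x ^ 3 * N) := by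
    calc _ ≤ 64 * (x ^ 3) ^ 2 / x := by gcongr
      _ = 64 * 1 * (x ^ 5 + 0) := by field_simp; ring
      _ ≤ _ := by gcongr; positivity
  have b2 : 10 ^ 6 * (t : ℝ) ^ 6 * Y ^ 2 * x ^ 3 ≤
      10 ^ 6 * (K ^ 6 * 41 ^ ε * (N : ℝ) ^ ε) * (3042 * (x ^ 2 + N)) * x ^ 3 := by gcongr
  calc _ ≤ _ := key.trans (add_le_add b1 b2)
    _ = _ := by ring

/-- squared distance between two vertices -/
def sd (q : Fin 4 → V) (i j : Fin 4) : ℤ := dt (q i - q j) (q i - q j)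

def cr (u w : V) : V := ![u 1 * w 2 - u 2 * w 1, u 2 * w 0 - u 0 * w 2, u 0 * w 1 - u 1 * w 0]

def det (q : Fin 4 → V) : ℤ := dt (cr (q 1 - q 0) (q 2 - q 0)) (q 3 - q 0)

lemma polar (q : Fin 4 → V) (i j : Fin 4) :
    2 * dt (q i - q 0) (q j - q 0) = sd q i 0 + sd q j 0 - sd q i j := by
  simp only [sd, dt, Pi.sub_apply]
  ring

lemma dot_rel {q r : Fin 4 → V} (h : ∀ i j, sd q i j * sd r 0 1 = sd r i j * sd q 0 1)
    (i j : Fin 4) :
    dt (q i - q 0) (q j - q 0) * sd r 0 1 = dt (r i - r 0) (r j - r 0) * sd q 0 1 := by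
  have h1 := polar q i j
  have h2 := polar r i j
  refine mul_left_cancel₀ (two_ne_zero (α := ℤ)) ?_
  linear_combination sd r 0 1 * h1 - sd q 0 1 * h2 + h i 0 + h j 0 - h i j

def gram (a b c d e f : ℤ) : ℤ := a * b * c + 2 * d * e * f - a * f ^ 2 - b * e ^ 2 - c * d ^ 2

lemma det_sq (q : Fin 4 → V) : det q ^ 2 = gram (dt (q 1 - q 0) (q 1 - q 0))
    (dt (q 2 - q 0) (q 2 - q 0)) (dt (q 3 - q 0) (q 3 - q 0)) (dt (q 1 - q 0) (q 2 - q 0))
    (dt (q 1 - q 0) (q 3 - q 0)) (dt (q 2 - q 0) (q 3 - q 0)) := by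
  simp only [det, gram]
  generalize q 1 - q 0 = u
  generalize q 2 - q 0 = w
  generalize q 3 - q 0 = x
  simp only [dt, cr, Matrix.cons_val]
  ring

lemma gram_mul (a b c d e f s : ℤ) :
    gram a b c d e f * s ^ 3 = gram (a * s) (b * s) (c * s) (d * s) (e * s) (f * s) := by
  simp only [gram]
  ring

lemma is_sq {q r : Fin 4 → V} (h : ∀ i j, sd q i j * sd r 0 1 = sd r i j * sd q 0 1)
    (hr : det r ≠ 0) (hq : sd q 0 1 ≠ 0) : IsSquare (sd r 0 1 * sd q 0 1) := by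
  have h1 : det q ^ 2 * sd r 0 1 ^ 3 = det r ^ 2 * sd q 0 1 ^ 3 := by
    rw [det_sq, det_sq, gram_mul, gram_mul]
    simp only [dot_rel h]
  rw [← Rat.isSquare_intCast_iff]
  refine ⟨(sd r 0 1 ^ 2 * det q) / (sd q 0 1 * det r), ?_⟩
  have h2 : (det r : ℚ) ≠ 0 := by exact_mod_cast hr
  have h3 : (sd q 0 1 : ℚ) ≠ 0 := by exact_mod_cast hq
  have h4 : (det q : ℚ) ^ 2 * (sd r 0 1 : ℚ) ^ 3 = (det r : ℚ) ^ 2 * (sd q 0 1 : ℚ) ^ 3 := by
    exact_mod_cast h1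
  push_cast
  rw [div_mul_div_comm, eq_div_iff (by positivity)]
  linear_combination (-(sd r 0 1 : ℚ)) * h4

lemma lag (u w : V) : dt u u * dt w w - dt w u ^ 2 = dt (cr u w) (cr u w) := by
  simp only [dt, cr, Matrix.cons_val]
  ring

lemma cr_pos {u w x : V} (h : dt (cr u w) x ≠ 0) : 0 < dt u u * dt w w - dt w u ^ 2 := by
  rw [lag]
  refine lt_of_le_of_ne (dt_nonneg _) fun h0 => h ?_
  have := dt_zero _ h0.symm
  simp [dt, this]

theorem quads (ε : ℝ) (hε : 0 < ε) : ∃ C : ℝ, 0 < C ∧ ∀ (N : ℕ) (P : Finset V), 1 ≤ N →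
    (∀ a ∈ P, ∀ i, 0 ≤ a i ∧ a i ≤ N) → ∀ r : Fin 4 → V, (∀ i, r i ∈ P) → det r ≠ 0 →
    ∀ H : Finset (Fin 4 → V), (∀ q ∈ H, (∀ i, q i ∈ P) ∧ sd q 0 1 ≠ 0 ∧
      ∀ i j, sd q i j * sd r 0 1 = sd r i j * sd q 0 1) →
    (H.card : ℝ) ≤ C * (N : ℝ) ^ ε *
      ((P.card : ℝ) ^ ((5 : ℝ) / 3) + P.card * min (P.card : ℝ) N) := by
  classical
  obtain ⟨C1, hC1, h1⟩ := edge2 (ε / 2) (by positivity)
  obtain ⟨C2, hC2, h2⟩ := circ (ε / 16) (by positivity)
  refine ⟨C1 * (C2 * 9 ^ (ε / 16)) ^ 2, by positivity, fun N P hN hP r hr hd H hH => ?_⟩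
  have hN0 : (0 : ℝ) < N := by exact_mod_cast hN
  have sd10 : ∀ q : Fin 4 → V, dt (q 1 - q 0) (q 1 - q 0) = sd q 0 1 := fun q => by
    simp only [sd, dt, Pi.sub_apply]
    ring
  have hA2 : 0 < dt (r 1 - r 0) (r 1 - r 0) * dt (r 2 - r 0) (r 2 - r 0) -
      dt (r 2 - r 0) (r 1 - r 0) ^ 2 := cr_pos hd
  have hA3 : 0 < dt (r 1 - r 0) (r 1 - r 0) * dt (r 3 - r 0) (r 3 - r 0) -
      dt (r 3 - r 0) (r 1 - r 0) ^ 2 := by
    refine cr_pos (x := r 2 - r 0) fun h => hd ?_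
    simp only [det, dt, cr, Matrix.cons_val] at h ⊢
    linear_combination -h
  have hs : 0 < sd r 0 1 := by
    refine lt_of_le_of_ne (dt_nonneg _) fun h => ?_
    rw [sd10, ← h] at hA2
    nlinarith [sq_nonneg (dt (r 2 - r 0) (r 1 - r 0))]
  set B : ℝ := C2 * (9 * (N : ℝ) ^ 4) ^ (ε / 16) with hB
  have fib : ∀ (e : V × V) (k : Fin 4), 0 < dt (r 1 - r 0) (r 1 - r 0) * dt (r k - r 0) (r k - r 0) -
      dt (r k - r 0) (r 1 - r 0) ^ 2 →
      (((H.filter fun q => (q 0, q 1) = e).image fun q => q k - q 0).card : ℝ) ≤ B := by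
    intro e k hk
    refine h2 _ (e.2 - e.1) _ ?_ ?_ (by positivity)
    · intro w hw w' hw'
      obtain ⟨q, hq, rfl⟩ := mem_image.1 hw
      obtain ⟨q', hq', rfl⟩ := mem_image.1 hw'
      obtain ⟨hq1, rfl⟩ := mem_filter.1 hq
      obtain ⟨hq2, he⟩ := mem_filter.1 hq'
      obtain ⟨e0, e1⟩ := Prod.ext_iff.1 he
      simp only at e0 e1 ⊢
      have e2 : sd q' 0 1 = sd q 0 1 := by rw [sd, sd, e0, e1]
      have a1 := dot_rel (hH q hq1).2.2
      have a2 := dot_rel (hH q' hq2).2.2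
      refine ⟨mul_right_cancel₀ hs.ne' ?_, mul_right_cancel₀ hs.ne' ?_⟩
      · rw [a1, a2, e2]
      · rw [a1, ← e2, ← a2, e1, e0]
    · intro w hw
      obtain ⟨q, hq, rfl⟩ := mem_image.1 hw
      obtain ⟨hq1, rfl⟩ := mem_filter.1 hq
      obtain ⟨b1, b2, b3⟩ := hH q hq1
      have a1 := dot_rel b3
      simp only
      constructor
      · have b4 : 0 < sd q 0 1 ^ 2 := by positivity
        refine pos_of_mul_pos_left (b := sd r 0 1 ^ 2) (lt_of_lt_of_eq (mul_pos hk b4) ?_)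
          (sq_nonneg _)
        calc _ = (dt (r 1 - r 0) (r 1 - r 0) * sd q 0 1) * (dt (r k - r 0) (r k - r 0) * sd q 0 1) -
            (dt (r k - r 0) (r 1 - r 0) * sd q 0 1) ^ 2 := by ring
          _ = _ := by
            rw [← a1, ← a1, ← a1]
            ring
      · have c1 := dt_le (hP _ (b1 1)) (hP _ (b1 0))
        have c2 := dt_le (hP _ (b1 k)) (hP _ (b1 0))
        have c3 := dt_nonneg (q k - q 0)
        have c4 : dt (q 1 - q 0) (q 1 - q 0) * dt (q k - q 0) (q k - q 0) -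
            dt (q k - q 0) (q 1 - q 0) ^ 2 ≤ 9 * (N : ℤ) ^ 4 := by
          calc _ ≤ dt (q 1 - q 0) (q 1 - q 0) * dt (q k - q 0) (q k - q 0) :=
                sub_le_self _ (sq_nonneg _)
            _ ≤ (3 * (N : ℤ) ^ 2) * (3 * (N : ℤ) ^ 2) := by gcongr
            _ = _ := by ring
        exact_mod_cast c4
  have hB0 : 0 ≤ B := by positivity
  have h3 := h1 N P hN hP (sd r 0 1) hs (dt_le (hP _ (hr 0)) (hP _ (hr 1)))
    (H.image fun q => (q 0, q 1)) (by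
      intro e he
      obtain ⟨q, hq, rfl⟩ := mem_image.1 he
      obtain ⟨b1, b2, b3⟩ := hH q hq
      exact ⟨b1 0, b1 1, b2, is_sq b3 hd b2⟩)
  have h4 : (H.card : ℝ) ≤ (H.image fun q => (q 0, q 1)).card * B ^ 2 := by
    rw [card_eq_sum_card_image (fun q : Fin 4 → V => (q 0, q 1)) H, Nat.cast_sum, ← nsmul_eq_mul]
    refine sum_le_card_nsmul _ _ _ fun e _ => ?_
    have h5 : (H.filter fun q => (q 0, q 1) = e).card ≤
        ((H.filter fun q => (q 0, q 1) = e).image fun q => q 2 - q 0).card *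
        ((H.filter fun q => (q 0, q 1) = e).image fun q => q 3 - q 0).card := by
      rw [← card_product]
      refine card_le_card_of_injOn (fun q => (q 2 - q 0, q 3 - q 0)) (fun q hq => ?_) ?_
      · exact mem_coe.2 (mem_product.2 ⟨mem_image_of_mem _ hq, mem_image_of_mem _ hq⟩)
      · intro q hq q' hq' he
        obtain ⟨e0, e1⟩ := Prod.ext_iff.1 ((mem_filter.1 hq).2.trans (mem_filter.1 hq').2.symm)
        obtain ⟨e2, e3⟩ := Prod.ext_iff.1 he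
        simp only at e0 e1 e2 e3
        rw [e0, sub_left_inj] at e2 e3
        funext i
        fin_cases i
        exacts [e0, e1, e2, e3]
    calc _ ≤ (((H.filter fun q => (q 0, q 1) = e).image fun q => q 2 - q 0).card : ℝ) *
          ((H.filter fun q => (q 0, q 1) = e).image fun q => q 3 - q 0).card := by
          exact_mod_cast h5
      _ ≤ B * B := mul_le_mul (fib e 2 hA2) (fib e 3 hA3) (Nat.cast_nonneg _) hB0
      _ = _ := (sq B).symm
  have h6 : (N : ℝ) ^ (ε / 2) * B ^ 2 = (C2 * 9 ^ (ε / 16)) ^ 2 * (N : ℝ) ^ ε := by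
    have h7 : (((N : ℝ) ^ 4) ^ (ε / 16)) ^ 2 = (N : ℝ) ^ (ε / 2) := by
      rw [← Real.rpow_natCast, ← Real.rpow_natCast, ← Real.rpow_mul hN0.le,
        ← Real.rpow_mul hN0.le]
      congr 1
      push_cast
      ring
    have h8 : (N : ℝ) ^ ε = (N : ℝ) ^ (ε / 2) * (N : ℝ) ^ (ε / 2) := by
      rw [← Real.rpow_add hN0, add_halves]
    rw [hB, Real.mul_rpow (by norm_num) (by positivity), ← mul_assoc C2, mul_pow _ (_ ^ _), h7, h8]
    ring
  calc _ ≤ C1 * (N : ℝ) ^ (ε / 2) *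
        ((P.card : ℝ) ^ ((5 : ℝ) / 3) + P.card * min (P.card : ℝ) N) * B ^ 2 :=
        h4.trans (by gcongr)
    _ = C1 * ((N : ℝ) ^ (ε / 2) * B ^ 2) *
        ((P.card : ℝ) ^ ((5 : ℝ) / 3) + P.card * min (P.card : ℝ) N) := by ring
    _ = _ := by rw [h6]; ring

end Pool.Agent.MP_36f34d_co.H14
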